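import Pool.Agent.Helper156.OF.Peak
import Pool.Agent.Helper156.OF.Nielsen
import Pool.Agent.Helper156.OF.RelAut

set_option autoImplicit false
set_option linter.unusedSectionVars false

/-! Cyclic versions of length, cuts and occurrences; peak reduction for a general height. -/

namespace Pool.Agent.Helper22.MC

open Pool.Agent.Helper156.OF

section slopes

variable {α : Type}

/-- turns of a path started at the half-edge `p`, without the last one -/
def tin : Option (Lt α) → List (Lt α) → List (Option (Lt α) × Option (Lt α))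
  | _, [] => []
  | p, y :: ys => (p, some (nv y)) :: tin (some y) ys

/-- last half-edge -/
def lastp : Option (Lt α) → List (Lt α) → Option (Lt α)
  | p, [] => p
  | _, y :: ys => lastp (some y) ys

lemma tin_append (l m : List (Lt α)) : ∀ p, tin p (l ++ m) = tin p l ++ tin (lastp p l) m := by
  induction l with
  | nil => intro p; rfl
  | cons y ys ih => intro p; simp only [List.cons_append, tin, lastp, ih]

lemma lastp_append (l m : List (Lt α)) : ∀ p, lastp p (l ++ m) = lastp (lastp p l) m := by
  induction l with
  | nil => intro p; rfl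
  | cons y ys ih => intro p; simp only [List.cons_append, lastp, ih]

lemma lastp_ne (l : List (Lt α)) (hl : l ≠ []) (p q : Option (Lt α)) : lastp p l = lastp q l := by
  cases l with
  | nil => exact absurd rfl hl
  | cons y ys => rfl

lemma turns_eq (l : List (Lt α)) : ∀ p, turns p l = tin p l ++ [(lastp p l, none)] := by
  induction l with
  | nil => intro p; rfl
  | cons y ys ih => intro p; simp only [turns, tin, lastp, ih, List.cons_append]

variable [DecidableEq α]

/-- cyclically reduced core -/
def cr (v : FreeGroup α) : List (Lt α) := FreeGroup.reduceCyclically v.toWord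

/-- cyclic length -/
def cyc (v : FreeGroup α) : ℕ := (cr v).length

lemma toWord_pow_succ (v : FreeGroup α) (k : ℕ) :
    (v ^ (k + 1)).toWord = FreeGroup.reduceCyclically.conjugator v.toWord ++
      (List.replicate (k + 1) (cr v)).flatten ++
      FreeGroup.invRev (FreeGroup.reduceCyclically.conjugator v.toWord) := by
  unfold cr
  rw [← FreeGroup.reduceCyclically.reduce_flatten_replicate_succ FreeGroup.isReduced_toWord]
  have : ∀ n, FreeGroup.mk (List.replicate n v.toWord).flatten = v ^ n := by
    intro n
    induction n with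
    | zero => rfl
    | succ n ih =>
      rw [List.replicate_succ, List.flatten_cons, ← FreeGroup.mul_mk, ih, FreeGroup.mk_toWord,
        pow_succ']
  rw [← this (k + 1), FreeGroup.toWord_mk]

lemma toWord_eq (v : FreeGroup α) :
    v.toWord = FreeGroup.reduceCyclically.conjugator v.toWord ++ cr v ++
      FreeGroup.invRev (FreeGroup.reduceCyclically.conjugator v.toWord) :=
  (FreeGroup.reduceCyclically.conj_conjugator_reduceCyclically v.toWord).symm

/-- number of cyclic turns cut by a set -/
def ccut (A : Finset (Option (Lt α))) (v : FreeGroup α) : ℕ :=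
  (tin (lastp none (cr v)) (cr v)).countP (fun t => decide (¬ (t.1 ∈ A ↔ t.2 ∈ A)))

/-- number of occurrences in the cyclic word -/
def cocc (a : Lt α) (v : FreeGroup α) : ℕ := occ a (cr v)

lemma tin_rep (r : List (Lt α)) (q : Option (Lt α) × Option (Lt α) → Bool) (k : ℕ)
    (p : Option (Lt α)) :
    (tin p (List.replicate (k + 1) r).flatten).countP q = (tin p r).countP q +
      k * (tin (lastp none r) r).countP q ∧
    lastp p (List.replicate (k + 1) r).flatten = lastp p r := by
  induction k generalizing p with
  | zero => simp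
  | succ k ih =>
    rw [List.replicate_succ, List.flatten_cons, tin_append, List.countP_append, (ih _).1,
      lastp_append, (ih _).2]
    by_cases hr : r = []
    · subst hr
      simp [tin, lastp]
    · rw [lastp_ne r hr p none, lastp_ne r hr (lastp none r) none]
      refine ⟨by ring, rfl⟩

lemma cut_pow (A : Finset (Option (Lt α))) (v : FreeGroup α) (k : ℕ) :
    cut A (v ^ (k + 1)).toWord = cut A v.toWord + k * ccut A v := by
  rw [toWord_pow_succ]
  conv_rhs => rw [toWord_eq v]
  unfold cut ccut
  simp only [turns_eq, tin_append, lastp_append, List.countP_append]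
  rw [(tin_rep (cr v) _ k _).1, (tin_rep (cr v) (fun _ => true) k _).2]
  ring

lemma occ_append (a : Lt α) (l m : List (Lt α)) : occ a (l ++ m) = occ a l + occ a m := by
  unfold occ
  rw [List.countP_append]

lemma occ_rep (a : Lt α) (r : List (Lt α)) (k : ℕ) :
    occ a (List.replicate k r).flatten = k * occ a r := by
  induction k with
  | zero => simp [occ]
  | succ k ih =>
    rw [List.replicate_succ, List.flatten_cons, occ_append, ih]
    ring

lemma occ_pow (a : Lt α) (v : FreeGroup α) (k : ℕ) :
    occ a (v ^ (k + 1)).toWord = occ a v.toWord + k * cocc a v := by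
  rw [toWord_pow_succ]
  conv_rhs => rw [toWord_eq v]
  unfold cocc
  rw [occ_append, occ_append, occ_append, occ_append, occ_rep]
  ring

lemma norm_pow (v : FreeGroup α) (k : ℕ) :
    (v ^ (k + 1)).norm = v.norm + k * cyc v := by
  unfold FreeGroup.norm
  rw [toWord_pow_succ]
  conv_rhs => rw [toWord_eq v]
  unfold cyc
  simp only [List.length_append, List.length_flatten, List.map_replicate, List.sum_replicate,
    smul_eq_mul]
  ring

lemma slope {a b c d : ℕ} (h : ∀ k : ℕ, a + k * b ≤ c + k * d) : b ≤ d := by
  by_contra hlt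
  push Not at hlt
  have := h (c + 1)
  nlinarith

lemma ccut_compl [Fintype α] (A : Finset (Option (Lt α))) (v : FreeGroup α) :
    ccut Aᶜ v = ccut A v := by
  have h1 := cut_pow A v 1
  have h2 := cut_pow Aᶜ v 1
  rw [cut_compl, cut_compl] at h2
  omega

lemma ccut_submod (A B : Finset (Option (Lt α))) (v : FreeGroup α) :
    ccut (A ∩ B) v + ccut (A ∪ B) v ≤ ccut A v + ccut B v := by
  refine slope (a := cut (A ∩ B) v.toWord + cut (A ∪ B) v.toWord)
    (c := cut A v.toWord + cut B v.toWord) fun k => ?_
  have h := cut_submod A B (v ^ (k + 1)).toWord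
  rw [cut_pow, cut_pow, cut_pow, cut_pow] at h
  nlinarith

lemma cyc_conj (g v : FreeGroup α) : cyc (g * v * g⁻¹) = cyc v := by
  have key : ∀ g v : FreeGroup α, cyc (g * v * g⁻¹) ≤ cyc v := by
    intro g v
    refine slope (a := (g * v * g⁻¹).norm) (c := v.norm + 2 * g.norm) fun k => ?_
    rw [← norm_pow]
    have h1 : (g * v * g⁻¹) ^ (k + 1) = g * v ^ (k + 1) * g⁻¹ := conj_pow
    rw [h1]
    have h2 := FreeGroup.norm_mul_le (g * v ^ (k + 1)) g⁻¹
    have h3 := FreeGroup.norm_mul_le g (v ^ (k + 1))
    rw [FreeGroup.norm_inv_eq] at h2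
    have h4 := norm_pow v k
    omega
  refine le_antisymm (key g v) ?_
  have := key g⁻¹ (g * v * g⁻¹)
  have e : g⁻¹ * (g * v * g⁻¹) * g⁻¹⁻¹ = v := by group
  rwa [e] at this

lemma norm_toAut (σ : SP α) (v : FreeGroup α) : (toAut σ v).norm = v.norm := by
  have key : ∀ (σ : SP α) (v : FreeGroup α), (toAut σ v).norm ≤ v.norm := by
    intro σ v
    have : toAut σ v = FreeGroup.mk (v.toWord.map (σ : Equiv.Perm (Lt α))) := by
      conv_lhs => rw [← FreeGroup.mk_toWord (x := v)]
      induction v.toWord with
      | nil =>
        rw [List.map_nil]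
        exact map_one _
      | cons x l ih => rw [mk_cons, map_mul, ih, List.map_cons, mk_cons, toAut_gl]
    rw [this]
    refine le_trans FreeGroup.norm_mk_le ?_
    rw [List.length_map]
    rfl
  apply le_antisymm (key σ _)
  have := key σ⁻¹ (toAut σ v)
  rw [← MulAut.mul_apply, ← map_mul, inv_mul_cancel, map_one, MulAut.one_apply] at this
  exact this

lemma cyc_toAut (σ : SP α) (v : FreeGroup α) : cyc (toAut σ v) = cyc v := by
  have h1 := norm_pow v 1
  have h2 := norm_pow (toAut σ v) 1
  rw [← map_pow, norm_toAut, norm_toAut] at h2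
  omega

end slopes

section act

variable {α : Type} [DecidableEq α] [Fintype α]

lemma act_self : Act (toAut : SP α →* MulAut (FreeGroup α)) (eAut (α := α))
    (MonoidHom.id (MulAut (FreeGroup α))) where
  hW := fun _ => rfl
  hE := fun _ _ => rfl

/-- Whitehead automorphism -/
noncomputable abbrev wh (A : Finset (Option (Lt α))) (a : Lt α) : MulAut (FreeGroup α) :=
  om (eAut (α := α)) A a

lemma wh_gl (A : Finset (Option (Lt α))) (a : Lt α) (hA : Va A a) (y : Lt α) :
    wh A a (gl y) = gA A a none * ((gA A a (some (nv y)))⁻¹ *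
      (if y.1 = a.1 then 1 else gl y) * gA A a (some y)) * (gA A a none)⁻¹ :=
  act_om (rel_aut (α := α)) act_self a A hA y

lemma cyc_wh (A : Finset (Option (Lt α))) (a : Lt α) (hA : Va A a) (v : FreeGroup α) :
    cyc (wh A a v) + cocc a v = cyc v + ccut A v := by
  have aux : ∀ (A : Finset (Option (Lt α))) (a : Lt α), Va A a → none ∉ A →
      cyc (wh A a v) + cocc a v = cyc v + ccut A v := by
    intro A a hA hn
    have h0 : ∀ u : FreeGroup α, (wh A a u).norm + occ a u.toWord = u.norm + cut A u.toWord := by
      intro u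
      have h := norm_whitehead A a hA.1 hA.2 hn ((wh A a).toMonoidHom) (fun y => by
        have := wh_gl A a hA y
        simp only [gA, if_neg hn, inv_one, one_mul, mul_one] at this
        exact this) u.toWord FreeGroup.isReduced_toWord
      rw [FreeGroup.mk_toWord] at h
      exact h
    have h1 := h0 v
    have h2 := h0 (v ^ (1 + 1))
    rw [map_pow, norm_pow, norm_pow, occ_pow, cut_pow] at h2
    omega
  by_cases hn : none ∈ A
  · have hv : Va Aᶜ (nv a) := hA.compl
    have := aux Aᶜ (nv a) hv (by rw [Finset.mem_compl, not_not]; exact hn)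
    have e : wh Aᶜ (nv a) = wh A a := (rel_aut (α := α)).om_compl A a
    rw [e, ccut_compl] at this
    exact this
  · exact aux A a hA hn

lemma cyc_wh_two (A C : Finset (Option (Lt α))) (a z : Lt α) (hA : Va A a) (hC : Va C z)
    (hAC : Disjoint A C) (ha : some (nv a) ∉ C) (v : FreeGroup α) :
    cyc (wh C z (wh A a v)) + cocc a v + cocc z v ≤ cyc v + ccut A v + ccut C v := by
  have ha' : some a ∉ C := fun h => (Finset.disjoint_left.1 hAC) hA.1 h
  have haz : a.1 ≠ z.1 := by
    intro h
    rcases fst_eq_iff.1 h with h | h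
    · exact ha' (h ▸ hC.1)
    · rw [h, nv_nv] at ha
      exact ha hC.1
  set G : Option (Lt α) → FreeGroup α :=
    fun p => if p ∈ A then gl a else if p ∈ C then gl z else 1 with hG
  have hG2 : ∀ p, G p = gA C z p * gA A a p := by
    intro p
    simp only [hG, gA]
    by_cases h1 : p ∈ A
    · have h2 : p ∉ C := (Finset.disjoint_left.1 hAC) h1
      simp [h1, h2]
    · by_cases h2 : p ∈ C
      · simp [h1, h2]
      · simp [h1, h2]
  set ψ : FreeGroup α →* FreeGroup α :=
    ((wh C z).toMonoidHom).comp ((wh A a).toMonoidHom) with hψ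
  have hz1 : wh C z (gl a) = gA C z none * gl a * (gA C z none)⁻¹ := by
    rw [wh_gl C z hC a, if_neg haz]
    simp [gA, ha, ha']
  have hz2 : ∀ p, wh C z (gA A a p) = gA C z none * gA A a p * (gA C z none)⁻¹ := by
    intro p
    by_cases hp : p ∈ A
    · have h1 : gA A a p = gl a := by simp [gA, hp]
      rw [h1, hz1]
    · have h1 : gA A a p = 1 := by simp [gA, hp]
      rw [h1, map_one]
      group
  have key : ∀ y : Lt α, ψ (gl y) = G none * ((G (some (nv y)))⁻¹ *
      (if y.1 = a.1 ∨ y.1 = z.1 then 1 else gl y) * G (some y)) * (G none)⁻¹ := by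
    intro y
    have e1 : ψ (gl y) = wh C z (wh A a (gl y)) := rfl
    rw [e1, wh_gl A a hA y]
    simp only [map_mul, map_inv, hz2]
    by_cases hy : y.1 = a.1
    · rw [if_pos hy, if_pos (Or.inl hy), map_one]
      have hy1 : gA C z (some y) = 1 := by
        rcases fst_eq_iff.1 hy with h | h
        · subst h; simp [gA, ha']
        · subst h; simp [gA, ha]
      have hy2 : gA C z (some (nv y)) = 1 := by
        rcases fst_eq_iff.1 hy with h | h
        · subst h; simp [gA, ha]
        · subst h; simp [gA, ha']
      rw [hG2, hG2, hG2, hy1, hy2]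
      group
    · rw [if_neg hy, wh_gl C z hC y]
      have : (y.1 = a.1 ∨ y.1 = z.1) ↔ y.1 = z.1 := by simp [hy]
      rw [hG2, hG2, hG2]
      simp only [this]
      group
  have h0 : ∀ u : FreeGroup α, (ψ u).norm + occ a u.toWord + occ z u.toWord ≤
      u.norm + cut A u.toWord + cut C u.toWord := by
    intro u
    have h := norm_two A C a z haz hAC G (fun p => rfl) ψ key u.toWord
    rw [FreeGroup.mk_toWord] at h
    exact h
  have e2 : wh C z (wh A a v) = ψ v := rfl
  rw [e2]
  refine slope (a := (ψ v).norm + occ a v.toWord + occ z v.toWord)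
    (c := v.norm + cut A v.toWord + cut C v.toWord) fun k => ?_
  have h := h0 (v ^ (k + 1))
  rw [map_pow, norm_pow, norm_pow, occ_pow, occ_pow, cut_pow, cut_pow] at h
  nlinarith

end act

end Pool.Agent.Helper22.MC
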