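import Pool.Agent.Helper22.MC.M1

set_option autoImplicit false
set_option linter.unusedSectionVars false

/-! Peak reduction for a general height function (adapted from `Pool.Agent.Helper156.OF.Peak`). -/

namespace Pool.Agent.Helper22.MC

open Pool.Agent.Helper156.OF (Lt nv nv_nv nv_inj nv_ne ne_nv SP Rel Stp Va om stp_om stp_W stp_refl stp_W_left va_image
  stp_W_right stp_symm stp_switch stp_same)
open Pool.Agent.Helper156

variable {α P : Type} [DecidableEq α] [Fintype α] [Group P]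

/-- A height function with the properties used in peak reduction. -/
structure HS (W : SP α →* P) (E : Lt α → Lt α → P) (Hh : P → ℕ)
    (Cc : P → Finset (Option (Lt α)) → ℕ) (Dd : P → Lt α → ℕ) : Prop where
  om : ∀ (g : P) (A : Finset (Option (Lt α))) (a : Lt α), Va A a →
    Hh (OF.om E A a * g) + Dd g a = Hh g + Cc g A
  two : ∀ (g : P) (A C : Finset (Option (Lt α))) (a z : Lt α), Va A a → Va C z →
    Disjoint A C → some (nv a) ∉ C →
    Hh (OF.om E C z * (OF.om E A a * g)) + Dd g a + Dd g z ≤ Hh g + Cc g A + Cc g C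
  W : ∀ (w : SP α) (g : P), Hh (W w * g) = Hh g
  compl : ∀ (g : P) (A : Finset (Option (Lt α))), Cc g Aᶜ = Cc g A
  submod : ∀ (g : P) (A B : Finset (Option (Lt α))),
    Cc g (A ∩ B) + Cc g (A ∪ B) ≤ Cc g A + Cc g B
  nv : ∀ (g : P) (a : Lt α), Dd g (nv a) = Dd g a

variable {W : SP α →* P} {E : Lt α → Lt α → P} {Hh : P → ℕ}
  {Cc : P → Finset (Option (Lt α)) → ℕ} {Dd : P → Lt α → ℕ}

/-- Connectedness below a height. -/
def Conn (W : SP α →* P) (E : Lt α → Lt α → P) (Hh : P → ℕ) (N : ℕ) :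
    P → P → Prop :=
  Relation.ReflTransGen (fun u v => Stp W E u v ∧ Hh u < N ∧ Hh v < N)

/-- Joinability below a height. -/
def Joi (W : SP α →* P) (E : Lt α → Lt α → P) (Hh : P → ℕ) (N : ℕ)
    (g h : P) : Prop :=
  ∃ k, Stp W E g k ∧ Hh k < N ∧ Conn W E Hh N k h

section peak

variable [Nonempty α] (R : Rel W E) (S : HS W E Hh Cc Dd)

include R S

lemma joi_direct {N : ℕ} {g h : P} (s : Stp W E g h) (hh : Hh h < N) : Joi W E Hh N g h :=
  ⟨h, s, hh, Relation.ReflTransGen.refl⟩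

lemma joi_two {N : ℕ} {g k h : P} (s : Stp W E g k) (t : Stp W E k h) (hk : Hh k < N)
    (hh : Hh h < N) : Joi W E Hh N g h :=
  ⟨k, s, hk, Relation.ReflTransGen.single ⟨t, hk, hh⟩⟩

/-- Compatible (disjoint) case. -/
lemma joi_disj (g : P) (A C : Finset (Option (Lt α))) (a z : Lt α) (hA : Va A a) (hC : Va C z)
    (hAC : Disjoint A C) (h1 : Hh (om E A a * g) ≤ Hh g) (h2 : Hh (om E C z * g) < Hh g) :
    Joi W E Hh (Hh g) (om E A a * g) (om E C z * g) := by
  have k1 := S.om g A a hA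
  have k2 := S.om g C z hC
  by_cases ha : some (nv a) ∈ C
  · by_cases hz : some (nv z) ∈ A
    · by_cases hza : z = nv a
      · subst hza
        exact joi_direct R S (stp_same R hA hC hAC g) h2
      · have hCa : Va C (nv a) := by
          refine ⟨ha, ?_⟩
          rw [nv_nv]
          exact fun h => (Finset.disjoint_left.1 hAC) hA.1 h
        have hAz : Va A (nv z) := by
          refine ⟨hz, ?_⟩
          rw [nv_nv]
          exact fun h => (Finset.disjoint_left.1 hAC) h hC.1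
        rcases le_or_gt (Dd g z) (Dd g a) with hd | hd
        · have k3 := S.om g C (nv a) hCa
          rw [S.nv] at k3
          exact joi_two R S (stp_same R hA hCa hAC g) (stp_switch R hCa hC g) (by omega) h2
        · have k3 := S.om g A (nv z) hAz
          rw [S.nv] at k3
          have hs := stp_same R hAz (by rw [nv_nv]; exact hC) hAC g
          rw [nv_nv] at hs
          exact joi_two R S (stp_switch R hA hAz g) hs (by omega) h2
    · obtain ⟨A', hA', e⟩ := R.om_square C A z a hC hA hAC.symm hz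
      have e' : om E A' z * (om E A a * g) = om E A a * (om E C z * g) := by
        rw [← mul_assoc, e, mul_assoc]
      have k3 := S.two g C A z a hC hA hAC.symm hz
      refine joi_two R S (k := om E A a * (om E C z * g)) ?_ ?_ (by omega) h2
      · rw [← e']
        exact stp_om R hA' _
      · exact stp_symm R (stp_om R hA _)
  · obtain ⟨A', hA', e⟩ := R.om_square A C a z hA hC hAC ha
    have e' : om E A' a * (om E C z * g) = om E C z * (om E A a * g) := by
      rw [← mul_assoc, e, mul_assoc]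
    have k3 := S.two g A C a z hA hC hAC ha
    refine joi_two R S (k := om E C z * (om E A a * g)) (stp_om R hC _) ?_ (by omega) h2
    apply stp_symm R
    rw [← e']
    exact stp_om R hA' _

/-- Compatible case. -/
lemma joi_comp (g : P) (A C : Finset (Option (Lt α))) (a z : Lt α) (hA : Va A a) (hC : Va C z)
    (hAC : Disjoint A C ∨ C ⊆ A) (h1 : Hh (om E A a * g) ≤ Hh g)
    (h2 : Hh (om E C z * g) < Hh g) :
    Joi W E Hh (Hh g) (om E A a * g) (om E C z * g) := by
  rcases hAC with h | h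
  · exact joi_disj R S g A C a z hA hC h h1 h2
  · have := joi_disj R S g Aᶜ C (nv a) z hA.compl hC
      ((Finset.disjoint_left.2 fun x hx hx' => (Finset.mem_compl.1 hx) (h hx')))
      (by rwa [R.om_compl]) h2
    rwa [R.om_compl] at this

lemma joi_comp' (g : P) (C B : Finset (Option (Lt α))) (z b : Lt α) (hC : Va C z) (hB : Va B b)
    (hCB : Disjoint B C ∨ C ⊆ B) (h1 : Hh (om E C z * g) ≤ Hh g)
    (h2 : Hh (om E B b * g) < Hh g) :
    Joi W E Hh (Hh g) (om E C z * g) (om E B b * g) := by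
  rcases hCB with h | h
  · exact joi_disj R S g C B z b hC hB h.symm h1 h2
  · have := joi_disj R S g C Bᶜ z (nv b) hC hB.compl
      ((Finset.disjoint_left.2 fun x hx hx' => (Finset.mem_compl.1 hx') (h hx)))
      h1 (by rwa [R.om_compl])
    rwa [R.om_compl] at this

/-- Existence of a reducing corner. -/
lemma corner (g : P) (A B : Finset (Option (Lt α))) (a b : Lt α) (hA : Va A a) (hB : Va B b)
    (h : Cc g A + Cc g B < Dd g a + Dd g b) :
    ∃ (C : Finset (Option (Lt α))) (z : Lt α), Va C z ∧ Cc g C < Dd g z ∧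
      (Disjoint A C ∨ C ⊆ A) ∧ (Disjoint B C ∨ C ⊆ B) := by
  have s1 := S.submod g A B
  have s2 := S.submod g A Bᶜ
  have s3 : Cc g (A ∪ B) = Cc g (A ∪ B)ᶜ := (S.compl g _).symm
  have s4 : Cc g (A ∪ Bᶜ) = Cc g (B \ A) := by
    rw [← S.compl g (B \ A)]
    congr 1
    ext x
    simp only [Finset.mem_union, Finset.mem_compl, Finset.mem_sdiff]
    tauto
  have s5 : A ∩ Bᶜ = A \ B := by
    ext x
    simp only [Finset.mem_inter, Finset.mem_compl, Finset.mem_sdiff]
  rw [s4, s5, S.compl g B] at s2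
  rw [s3] at s1
  by_contra hcon
  have i1 : A ∩ B ⊆ A := Finset.inter_subset_left
  have i2 : A ∩ B ⊆ B := Finset.inter_subset_right
  have i3 : A \ B ⊆ A := Finset.sdiff_subset
  have i4 : Disjoint B (A \ B) := Finset.disjoint_sdiff
  have i5 : B \ A ⊆ B := Finset.sdiff_subset
  have i6 : Disjoint A (B \ A) := Finset.disjoint_sdiff
  have i7 : Disjoint A (A ∪ B)ᶜ :=
    Finset.disjoint_left.2 fun x hx hx' => (Finset.mem_compl.1 hx') (Finset.mem_union_left _ hx)
  have i8 : Disjoint B (A ∪ B)ᶜ :=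
    Finset.disjoint_left.2 fun x hx hx' => (Finset.mem_compl.1 hx') (Finset.mem_union_right _ hx)
  have mk : ∀ (C : Finset (Option (Lt α))) (z : Lt α), (Disjoint A C ∨ C ⊆ A) →
      (Disjoint B C ∨ C ⊆ B) → some z ∈ C → some (nv z) ∉ C → Dd g z ≤ Cc g C := by
    intro C z u1 u2 u3 u4
    by_contra hlt
    exact hcon ⟨C, z, ⟨u3, u4⟩, by omega, u1, u2⟩
  have t1 : some a ∈ B → Dd g a ≤ Cc g (A ∩ B) := fun u => by
    refine mk _ _ (Or.inr i1) (Or.inr i2) (Finset.mem_inter.2 ⟨hA.1, u⟩) ?_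
    exact fun v => hA.2 (Finset.mem_inter.1 v).1
  have t2 : some a ∉ B → Dd g a ≤ Cc g (A \ B) := fun u => by
    refine mk _ _ (Or.inr i3) (Or.inl i4) (Finset.mem_sdiff.2 ⟨hA.1, u⟩) ?_
    exact fun v => hA.2 (Finset.mem_sdiff.1 v).1
  have t3 : some (nv a) ∈ B → Dd g a ≤ Cc g (B \ A) := fun u => by
    rw [← S.nv]
    refine mk _ _ (Or.inl i6) (Or.inr i5) (Finset.mem_sdiff.2 ⟨u, hA.2⟩) ?_
    rw [nv_nv]
    exact fun v => (Finset.mem_sdiff.1 v).2 hA.1
  have t4 : some (nv a) ∉ B → Dd g a ≤ Cc g (A ∪ B)ᶜ := fun u => by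
    rw [← S.nv]
    refine mk _ _ (Or.inl i7) (Or.inl i8) ?_ ?_
    · rw [Finset.mem_compl, Finset.mem_union, not_or]
      exact ⟨hA.2, u⟩
    · rw [nv_nv, Finset.mem_compl, not_not]
      exact Finset.mem_union_left _ hA.1
  have t5 : some b ∈ A → Dd g b ≤ Cc g (A ∩ B) := fun u => by
    refine mk _ _ (Or.inr i1) (Or.inr i2) (Finset.mem_inter.2 ⟨u, hB.1⟩) ?_
    exact fun v => hB.2 (Finset.mem_inter.1 v).2
  have t6 : some b ∉ A → Dd g b ≤ Cc g (B \ A) := fun u => by
    refine mk _ _ (Or.inl i6) (Or.inr i5) (Finset.mem_sdiff.2 ⟨hB.1, u⟩) ?_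
    exact fun v => hB.2 (Finset.mem_sdiff.1 v).1
  have t7 : some (nv b) ∈ A → Dd g b ≤ Cc g (A \ B) := fun u => by
    rw [← S.nv]
    refine mk _ _ (Or.inr i3) (Or.inl i4) (Finset.mem_sdiff.2 ⟨u, hB.2⟩) ?_
    rw [nv_nv]
    exact fun v => (Finset.mem_sdiff.1 v).2 hB.1
  have t8 : some (nv b) ∉ A → Dd g b ≤ Cc g (A ∪ B)ᶜ := fun u => by
    rw [← S.nv]
    refine mk _ _ (Or.inl i7) (Or.inl i8) ?_ ?_
    · rw [Finset.mem_compl, Finset.mem_union, not_or]
      exact ⟨u, hB.2⟩
    · rw [nv_nv, Finset.mem_compl, not_not]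
      exact Finset.mem_union_right _ hB.1
  by_cases c1 : some a ∈ B <;> by_cases c2 : some (nv a) ∈ B <;> by_cases c3 : some b ∈ A <;>
    by_cases c4 : some (nv b) ∈ A <;>
    simp only [c1, c2, c3, c4, not_true_eq_false, not_false_eq_true, forall_const,
      IsEmpty.forall_iff] at t1 t2 t3 t4 t5 t6 t7 t8 <;> omega

lemma joi_om (g : P) (A B : Finset (Option (Lt α))) (a b : Lt α) (hA : Va A a) (hB : Va B b)
    (h1 : Hh (om E A a * g) ≤ Hh g) (h2 : Hh (om E B b * g) < Hh g) :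
    Joi W E Hh (Hh g) (om E A a * g) (om E B b * g) := by
  have k1 := S.om g A a hA
  have k2 := S.om g B b hB
  obtain ⟨C, z, hC, hlt, cA, cB⟩ := corner R S g A B a b hA hB (by omega)
  have k3 := S.om g C z hC
  have h3 : Hh (om E C z * g) < Hh g := by omega
  obtain ⟨k, s1, s2, s3⟩ := joi_comp R S g A C a z hA hC cA h1 h3
  obtain ⟨l, t1, t2, t3⟩ := joi_comp' R S g C B z b hC hB cB h3.le h2
  refine ⟨k, s1, s2, s3.trans ?_⟩
  exact Relation.ReflTransGen.head ⟨t1, h3, t2⟩ t3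

/-- The peak lemma. -/
lemma peak (g g₁ g₂ : P) (s₁ : Stp W E g g₁) (s₂ : Stp W E g g₂) (h1 : Hh g₁ ≤ Hh g)
    (h2 : Hh g₂ < Hh g) : Joi W E Hh (Hh g) g₁ g₂ := by
  obtain ⟨w, A, a, hA, rfl⟩ := s₁
  obtain ⟨v, B, b, hB, rfl⟩ := s₂
  rw [S.W] at h1 h2
  obtain ⟨k, t1, t2, t3⟩ := joi_om R S g A B a b hA hB h1 h2
  refine ⟨k, stp_W_right R w t1, t2, t3.tail ⟨stp_W R v _, h2, ?_⟩⟩
  rwa [S.W]

lemma conn_descend (N : ℕ) (x y : P) (hx : Hh x < N) (hy : Hh y < N)
    (h : Conn W E Hh (N + 1) x y) : Conn W E Hh N x y := by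
  have key : ∀ y, Conn W E Hh (N + 1) x y → (Hh y < N → Conn W E Hh N x y) ∧
      (Hh y = N → ∀ g', Stp W E y g' → Hh g' < N → Conn W E Hh N x g') := by
    intro y hxy
    induction hxy with
    | refl => exact ⟨fun _ => Relation.ReflTransGen.refl, fun h => by omega⟩
    | @tail y z _ hyz ih =>
      obtain ⟨s, h3, h4⟩ := hyz
      rcases lt_or_eq_of_le (Nat.lt_succ_iff.1 h3) with hy' | hy'
      · have c1 := ih.1 hy'
        refine ⟨fun hz => c1.tail ⟨s, hy', hz⟩, fun hz g' s' hg' => ?_⟩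
        obtain ⟨k, t1, t2, t3⟩ := peak R S z y g' (stp_symm R s) s' (by omega) (by omega)
        rw [hz] at t2 t3
        exact (c1.tail ⟨t1, hy', t2⟩).trans t3
      · have c2 := ih.2 hy'
        refine ⟨fun hz => c2 z s hz, fun hz g' s' hg' => ?_⟩
        obtain ⟨k, t1, t2, t3⟩ := peak R S z y g' (stp_symm R s) s' (by omega) (by omega)
        rw [hz] at t2 t3
        exact (c2 k t1 t2).trans t3
  exact (key y h).1 hy

lemma conn_min (M : ℕ) (x : P) (hx : Hh x = Hh 1) (h : Conn W E Hh M 1 x)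
    (hM : Hh 1 < M) : Conn W E Hh (Hh 1 + 1) 1 x := by
  obtain ⟨k, rfl⟩ := Nat.exists_eq_add_of_lt hM
  induction k with
  | zero => simpa using h
  | succ k ih =>
    apply ih _ (by omega)
    apply conn_descend R S _ _ _ (by omega) (by omega)
    exact h

end peak

end Pool.Agent.Helper22.MC
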