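import Pool.Agent.Helper22.MC.M2

set_option autoImplicit false
set_option linter.unusedSectionVars false

/-! Automorphisms between strictly minimal cyclic words. -/

namespace Pool.Agent.Helper22.MC

open Pool.Agent.Helper156.OF (Lt nv gl nv_nv nv_inj nv_ne ne_nv nv_fst fst_eq_iff SP Rel Stp Va om
  stp_om stp_W stp_refl stp_W_left va_image stp_W_right stp_symm stp_switch stp_same toAut eAut
  rel_aut nielsen_generation genSet gA xE cprod_insert aut_ext_gl gl_nv toAut_gl)
open Pool.Agent.Helper156

variable {α : Type} [DecidableEq α] [Fintype α]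

lemma conn_mono {P : Type} [Group P] {W : SP α →* P} {E : Lt α → Lt α → P} {Hh : P → ℕ}
    {M N : ℕ} (hMN : M ≤ N) {x y : P} (h : Conn W E Hh M x y) : Conn W E Hh N x y := by
  induction h with
  | refl => exact Relation.ReflTransGen.refl
  | tail _ hyz ih => exact ih.tail ⟨hyz.1, lt_of_lt_of_le hyz.2.1 hMN, lt_of_lt_of_le hyz.2.2 hMN⟩

lemma conn_of_mem [Nonempty α] (Hh : MulAut (FreeGroup α) → ℕ) (x : MulAut (FreeGroup α)) :
    ∃ M, Conn (toAut : SP α →* MulAut (FreeGroup α)) (eAut (α := α)) Hh M 1 x := by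
  have R := rel_aut (α := α)
  have step : ∀ (s y : MulAut (FreeGroup α)),
      (∀ g : MulAut (FreeGroup α), Stp toAut (eAut (α := α)) g (s * g)) →
      (∃ M, Conn toAut (eAut (α := α)) Hh M 1 y) →
      ∃ M, Conn toAut (eAut (α := α)) Hh M 1 (s * y) := by
    rintro s y hs ⟨M, hM⟩
    refine ⟨max M (max (Hh y) (Hh (s * y)) + 1), ?_⟩
    have h1 : Conn toAut (eAut (α := α)) Hh (max M (max (Hh y) (Hh (s * y)) + 1)) 1 y :=
      conn_mono (le_max_left _ _) hM
    refine h1.tail ⟨hs y, ?_, ?_⟩
    · exact lt_of_lt_of_le (Nat.lt_succ_of_le (le_max_left _ _)) (le_max_right _ _)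
    · exact lt_of_lt_of_le (Nat.lt_succ_of_le (le_max_right _ _)) (le_max_right _ _)
  have hE : ∀ (x a : Lt α) (g : MulAut (FreeGroup α)),
      Stp toAut (eAut (α := α)) g (eAut x a * g) := by
    intro x a g
    by_cases hxa : x.1 = a.1
    · rw [R.junk x a hxa, one_mul]
      exact stp_refl R g
    · have hne : (some x : Option (Lt α)) ∉ ({some a} : Finset (Option (Lt α))) := by
        intro h
        rw [Finset.mem_singleton] at h
        exact hxa (by rw [Option.some_injective _ h])
      have hv : Va (insert (some x) ({some a} : Finset (Option (Lt α)))) a := by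
        refine ⟨by simp, ?_⟩
        intro h
        rw [Finset.mem_insert, Finset.mem_singleton] at h
        rcases h with h | h
        · exact hxa (by rw [← Option.some_injective _ h, nv_fst])
        · exact nv_ne a (Option.some_injective _ h)
      have e : om (eAut (α := α)) (insert (some x) ({some a} : Finset (Option (Lt α)))) a =
          eAut x a := by
        have : om (eAut (α := α)) (insert (some x) ({some a} : Finset (Option (Lt α)))) a =
            xE (eAut (α := α)) (some x) a * om (eAut (α := α)) {some a} a :=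
          cprod_insert (R.xpc a) hne
        rw [this, R.om_single, mul_one]
        rfl
      have := stp_om R hv g
      rwa [e] at this
  have hx := nielsen_generation x
  induction hx using Subgroup.closure_induction_left with
  | one => exact ⟨0, Relation.ReflTransGen.refl⟩
  | mul_left s hs y _ ih =>
    refine step s y ?_ ih
    rcases hs with ⟨w, rfl⟩ | ⟨x, a, _, rfl⟩
    · exact fun g => stp_W R w g
    · exact hE x a
  | inv_mul_cancel s hs y _ ih =>
    refine step s⁻¹ y ?_ ih
    rcases hs with ⟨w, rfl⟩ | ⟨x, a, _, rfl⟩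
    · intro g
      rw [← map_inv]
      exact stp_W R _ g
    · intro g
      rw [← R.e1]
      exact hE x _ g

lemma hs_self (u : FreeGroup α) :
    HS (toAut : SP α →* MulAut (FreeGroup α)) (eAut (α := α)) (fun x => cyc (x u))
      (fun x A => ccut A (x u)) (fun x a => cocc a (x u)) where
  om := fun g A a hA => cyc_wh A a hA (g u)
  two := fun g A C a z hA hC hAC ha => cyc_wh_two A C a z hA hC hAC ha (g u)
  W := fun w g => cyc_toAut w (g u)
  compl := fun g A => ccut_compl A (g u)
  submod := fun g A B => ccut_submod A B (g u)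
  nv := fun _ _ => rfl

/-- Strict minimality of the conjugacy class of `w`. -/
def SM (w : FreeGroup α) : Prop :=
  ∀ (A : Finset (Option (Lt α))) (a : Lt α), Va A a → (∃ b : Lt α, b.1 ≠ a.1 ∧ some b ∈ A) →
    (∃ b : Lt α, b.1 ≠ a.1 ∧ some b ∉ A) → cyc w < cyc (wh A a w)

lemma wh_trivial_left (A : Finset (Option (Lt α))) (a : Lt α) (hA : Va A a)
    (h : ¬ ∃ b : Lt α, b.1 ≠ a.1 ∧ some b ∈ A) : wh A a = MulAut.conj (gA A a none) := by
  push Not at h
  apply aut_ext_gl
  intro y
  rw [wh_gl A a hA y, MulAut.conj_apply]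
  by_cases hy : y.1 = a.1
  · rw [if_pos hy]
    rcases fst_eq_iff.1 hy with rfl | rfl
    · simp [gA, hA.1, hA.2]
    · simp [gA, hA.1, hA.2]
  · rw [if_neg hy]
    have h1 : gA A a (some y) = 1 := by simp [gA, h y hy]
    have h2 : gA A a (some (nv y)) = 1 := by simp [gA, h (nv y) hy]
    rw [h1, h2]
    group

lemma wh_trivial_right (A : Finset (Option (Lt α))) (a : Lt α) (hA : Va A a)
    (h : ¬ ∃ b : Lt α, b.1 ≠ a.1 ∧ some b ∉ A) :
    wh A a = MulAut.conj (gA A a none * (gl a)⁻¹) := by
  push Not at h
  apply aut_ext_gl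
  intro y
  rw [wh_gl A a hA y, MulAut.conj_apply]
  by_cases hy : y.1 = a.1
  · rw [if_pos hy]
    rcases fst_eq_iff.1 hy with rfl | rfl
    · simp only [gA, hA.1, hA.2, if_true, if_false]
      group
    · simp only [gA, hA.1, hA.2, if_true, if_false, nv_nv, gl_nv]
      group
  · rw [if_neg hy]
    have h1 : gA A a (some y) = gl a := by simp [gA, h y hy]
    have h2 : gA A a (some (nv y)) = gl a := by simp [gA, h (nv y) hy]
    rw [h1, h2]
    group

lemma conj_aut (φ : MulAut (FreeGroup α)) (g : FreeGroup α) :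
    φ * MulAut.conj g = MulAut.conj (φ g) * φ := by
  ext x
  simp [MulAut.conj_apply]

theorem rigid [Nonempty α] (φ : MulAut (FreeGroup α)) (u : FreeGroup α) (hSM : SM (φ u))
    (hle : cyc u ≤ cyc (φ u)) : ∃ (g : FreeGroup α) (σ : SP α), φ = MulAut.conj g * toAut σ := by
  have R := rel_aut (α := α)
  have S := hs_self u
  obtain ⟨M, hM⟩ := conn_of_mem (fun x => cyc (x u)) φ
  set N := cyc (φ u) + 1 with hN
  have hconn : Conn (toAut : SP α →* MulAut (FreeGroup α)) (eAut (α := α))
      (fun x => cyc (x u)) N 1 φ := by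
    have hM' : Conn (toAut : SP α →* MulAut (FreeGroup α)) (eAut (α := α))
        (fun x => cyc (x u)) (max M N) 1 φ := conn_mono (le_max_left _ _) hM
    obtain ⟨k, hk⟩ := Nat.exists_eq_add_of_le (le_max_right M N)
    rw [hk] at hM'
    clear hk
    induction k with
    | zero => simpa using hM'
    | succ k ih =>
      apply ih
      apply conn_descend R S
      · show cyc ((1 : MulAut (FreeGroup α)) u) < _
        rw [MulAut.one_apply]
        omega
      · show cyc (φ u) < _
        omega
      · exact hM'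
  have key : ∀ x, Conn (toAut : SP α →* MulAut (FreeGroup α)) (eAut (α := α))
      (fun x => cyc (x u)) N x φ → ∃ (σ : SP α) (g : FreeGroup α),
        x = toAut σ * MulAut.conj g * φ := by
    intro x hx
    induction hx using Relation.ReflTransGen.head_induction_on with
    | refl => exact ⟨1, 1, by simp⟩
    | @head x y hxy _ ih =>
      obtain ⟨s, h1, h2⟩ := hxy
      obtain ⟨σ, g, hy⟩ := ih
      obtain ⟨w', A, a, hA, hx⟩ := stp_symm R s
      have hlex : cyc (x u) ≤ cyc (φ u) := by
        have : cyc (x u) < N := h1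
        omega
      -- transport the Whitehead automorphism
      set A' := A.image (Option.map ((σ⁻¹ : SP α) : Equiv.Perm (Lt α))) with hA'
      set a' := ((σ⁻¹ : SP α) : Equiv.Perm (Lt α)) a with ha'
      have hV' : Va A' a' := va_image R σ⁻¹ hA
      have hom : wh A a * toAut σ = toAut σ * wh A' a' := by
        have h3 := R.om_w σ⁻¹ A a
        rw [map_inv] at h3
        have h4 : wh A' a' = (toAut σ)⁻¹ * wh A a * (toAut σ)⁻¹⁻¹ := h3.symm
        rw [h4]
        group
      have hxe : x = toAut (w' * σ) * (wh A' a' * MulAut.conj g) * φ := by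
        rw [hx, hy, map_mul]
        calc toAut w' * (wh A a * (toAut σ * MulAut.conj g * φ)) =
            toAut w' * (wh A a * toAut σ) * MulAut.conj g * φ := by group
          _ = _ := by rw [hom]; group
      have hcyc : cyc (x u) = cyc (wh A' a' (φ u)) := by
        rw [hxe]
        simp only [MulAut.mul_apply]
        rw [cyc_toAut, MulAut.conj_apply, map_mul, map_mul, map_inv, cyc_conj]
      by_cases t1 : ∃ b : Lt α, b.1 ≠ a'.1 ∧ some b ∈ A'
      · by_cases t2 : ∃ b : Lt α, b.1 ≠ a'.1 ∧ some b ∉ A'
        · have := hSM A' a' hV' t1 t2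
          omega
        · rw [wh_trivial_right A' a' hV' t2] at hxe
          exact ⟨_, _, by rw [hxe, ← map_mul]⟩
      · rw [wh_trivial_left A' a' hV' t1] at hxe
        exact ⟨_, _, by rw [hxe, ← map_mul]⟩
  obtain ⟨σ, g, h⟩ := key 1 hconn
  refine ⟨g⁻¹, σ⁻¹, ?_⟩
  rw [map_inv, map_inv]
  have h2 : (toAut σ * MulAut.conj g) * φ = 1 := h.symm
  rw [eq_inv_of_mul_eq_one_right h2]
  group

end Pool.Agent.Helper22.MC
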