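import Pool.Agent.Helper156.OF.Words

set_option autoImplicit false
set_option linter.unusedSectionVars false

/-! Conjugate cyclically reduced words. -/

namespace Pool.Agent.Helper22.MC

open Pool.Agent.Helper156.OF

variable {α : Type} [DecidableEq α]

lemma isReduced_iff {L : List (Lt α)} :
    FreeGroup.IsReduced L ↔ L.IsChain (fun x y => x ≠ nv y) := by
  unfold FreeGroup.IsReduced
  simp only [rel_iff]

/-- cyclically reduced, in terms of letters -/
def CR (L : List (Lt α)) : Prop :=
  L.IsChain (fun x y => x ≠ nv y) ∧ ∀ x ∈ L.getLast?, ∀ y ∈ L.head?, x ≠ nv y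

lemma CR_iff {L : List (Lt α)} : FreeGroup.IsCyclicallyReduced L ↔ CR L := by
  unfold FreeGroup.IsCyclicallyReduced CR
  rw [isReduced_iff]
  simp only [rel_iff]

lemma eq_of_mk {L M : List (Lt α)} (hL : L.IsChain (fun x y => x ≠ nv y))
    (hM : M.IsChain (fun x y => x ≠ nv y)) (h : FreeGroup.mk L = FreeGroup.mk M) : L = M := by
  have h1 := congrArg FreeGroup.toWord h
  rw [FreeGroup.toWord_mk, FreeGroup.toWord_mk, (isReduced_iff.2 hL).reduce_eq,
    (isReduced_iff.2 hM).reduce_eq] at h1
  exact h1

lemma CR_rot {x : Lt α} {L : List (Lt α)} (h : CR (x :: L)) : CR (L ++ [x]) := by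
  obtain ⟨h1, h2⟩ := h
  cases L with
  | nil => exact ⟨by simp, by simpa using h2⟩
  | cons y ys =>
    rw [List.isChain_cons_cons] at h1
    refine ⟨?_, ?_⟩
    · rw [List.isChain_append]
      refine ⟨h1.2, by simp, ?_⟩
      intro a ha b hb
      have : b = x := by simpa using hb.symm
      subst this
      apply h2 a _ b (by simp)
      simpa using ha
    · intro a ha b hb
      have e0 : ((y :: ys) ++ [x]).getLast? = some x := List.getLast?_concat
      rw [e0] at ha
      have e1 : a = x := by simpa using ha.symm
      have e2 : b = y := by simpa using hb.symm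
      subst e1; subst e2
      exact h1.1

lemma CR_rot' {x : Lt α} {L : List (Lt α)} (h : CR (L ++ [x])) : CR (x :: L) := by
  obtain ⟨h1, h2⟩ := h
  rw [List.isChain_append] at h1
  cases L with
  | nil => exact ⟨by simp, by simpa using h2⟩
  | cons y ys =>
    refine ⟨?_, ?_⟩
    · rw [List.isChain_cons_cons]
      refine ⟨?_, h1.1⟩
      have e0 : ((y :: ys) ++ [x]).getLast? = some x := List.getLast?_concat
      exact h2 x (by rw [e0]; rfl) y (by simp)
    · intro a ha b hb
      have e2 : b = x := by simpa using hb.symm
      subst e2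
      apply h1.2.2 a _ b (by simp)
      simpa using ha

lemma mk_append (L M : List (Lt α)) :
    (FreeGroup.mk (L ++ M) : FreeGroup α) = FreeGroup.mk L * FreeGroup.mk M := by
  rw [FreeGroup.mul_mk]

lemma mk_single (x : Lt α) : (FreeGroup.mk [x] : FreeGroup α) = gl x := rfl

theorem conj_words (n : ℕ) : ∀ (h : FreeGroup α) (W₁ W₂ : List (Lt α)), h.norm = n → CR W₁ →
    CR W₂ → W₁ ≠ [] → h * FreeGroup.mk W₁ * h⁻¹ = FreeGroup.mk W₂ →
    ∃ (p q : List (Lt α)) (j : ℤ), W₁ = p ++ q ∧ W₂ = q ++ p ∧
      h = (FreeGroup.mk p)⁻¹ * (FreeGroup.mk W₁) ^ j := by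
  induction n with
  | zero =>
    intro h W₁ W₂ hn h1 h2 _ he
    have h0 : h = 1 := FreeGroup.norm_eq_zero.1 hn
    subst h0
    refine ⟨[], W₁, 0, rfl, ?_, ?_⟩
    · rw [List.append_nil]
      apply eq_of_mk h2.1 h1.1
      rw [← he]
      group
    · have : (FreeGroup.mk [] : FreeGroup α) = 1 := rfl
      rw [this]
      group
  | succ n ih =>
    intro h W₁ W₂ hn h1 h2 hne he
    obtain ⟨l, y, hw⟩ : ∃ l y, h.toWord = l ++ [y] := by
      have hne' : h.toWord ≠ [] := by
        intro h0
        have : h.norm = 0 := by unfold FreeGroup.norm; rw [h0]; rfl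
        omega
      exact ⟨_, _, (List.dropLast_append_getLast hne').symm⟩
    have hred : (l ++ [y]).IsChain (fun x y => x ≠ nv y) := by
      rw [← hw]
      exact isReduced_iff.1 FreeGroup.isReduced_toWord
    have hh : h = FreeGroup.mk l * gl y := by
      rw [← mk_single, ← mk_append, ← hw, FreeGroup.mk_toWord]
    have hl : (FreeGroup.mk l).norm = n := by
      have h3 : (FreeGroup.mk l).toWord = l := by
        rw [FreeGroup.toWord_mk, (isReduced_iff.2 (List.isChain_append.1 hred).1).reduce_eq]
      unfold FreeGroup.norm at hn ⊢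
      rw [h3]
      rw [hw, List.length_append] at hn
      simpa using hn
    by_cases c1 : ∃ W', W₁ = nv y :: W'
    · obtain ⟨W', rfl⟩ := c1
      have e0 : ∀ M : List (Lt α), (FreeGroup.mk (nv y :: M) : FreeGroup α) =
          (gl y)⁻¹ * FreeGroup.mk M := fun M => by rw [mk_cons, gl_nv]
      have e1 : (FreeGroup.mk (W' ++ [nv y]) : FreeGroup α) =
          gl y * FreeGroup.mk (nv y :: W') * (gl y)⁻¹ := by
        rw [mk_append, e0 W', mk_single, gl_nv]
        group
      have e2 : ∀ j : ℤ, (FreeGroup.mk (W' ++ [nv y]) : FreeGroup α) ^ j =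
          gl y * (FreeGroup.mk (nv y :: W')) ^ j * (gl y)⁻¹ := by
        intro j
        rw [e1, conj_zpow]
      obtain ⟨p, q, j, g1, g2, g3⟩ := ih (FreeGroup.mk l) (W' ++ [nv y]) W₂ hl (CR_rot h1) h2
        (by simp) (by rw [e1, ← he, hh]; group)
      rcases List.eq_nil_or_concat' q with rfl | ⟨q', z, rfl⟩
      · refine ⟨[nv y], W', j - 1, rfl, ?_, ?_⟩
        · rw [g2, List.append_nil] at *
          simpa using g1.symm
        · rw [List.append_nil] at g1
          rw [hh, g3, ← g1, e2, e1, mk_single, gl_nv]
          rw [sub_eq_add_neg, add_comm j (-1), zpow_add, zpow_neg_one]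
          group
      · rw [← List.append_assoc] at g1
        obtain ⟨g4, g5⟩ := List.append_inj' g1 rfl
        have g6 : z = nv y := by simpa using g5.symm
        subst g6
        refine ⟨nv y :: p, q', j, ?_, ?_, ?_⟩
        · rw [g4]; rfl
        · rw [g2]; simp
        · rw [hh, g3, e2, e0 p]
          group
    · by_cases c2 : ∃ W', W₁ = W' ++ [y]
      · obtain ⟨W', rfl⟩ := c2
        have e0 : ∀ M : List (Lt α), (FreeGroup.mk (y :: M) : FreeGroup α) =
            gl y * FreeGroup.mk M := fun M => mk_cons _ _
        have e1 : (FreeGroup.mk (y :: W') : FreeGroup α) =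
            gl y * FreeGroup.mk (W' ++ [y]) * (gl y)⁻¹ := by
          rw [mk_append, e0 W', mk_single]
          group
        have e2 : ∀ j : ℤ, (FreeGroup.mk (y :: W') : FreeGroup α) ^ j =
            gl y * (FreeGroup.mk (W' ++ [y])) ^ j * (gl y)⁻¹ := by
          intro j
          rw [e1, conj_zpow]
        obtain ⟨p, q, j, g1, g2, g3⟩ := ih (FreeGroup.mk l) (y :: W') W₂ hl (CR_rot' h1) h2
          (by simp) (by rw [e1, ← he, hh]; group)
        cases p with
        | nil =>
          refine ⟨W', [y], j + 1, rfl, ?_, ?_⟩
          · rw [g2, List.append_nil, ← List.nil_append q, ← g1]; rfl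
          · have : (FreeGroup.mk [] : FreeGroup α) = 1 := rfl
            rw [hh, g3, e2, this]
            have e3 : (FreeGroup.mk W')⁻¹ * (FreeGroup.mk (W' ++ [y]) : FreeGroup α) = gl y := by
              rw [mk_append, mk_single]; group
            rw [add_comm j 1, zpow_one_add, ← mul_assoc (FreeGroup.mk W')⁻¹, e3]
            group
        | cons z p' =>
          rw [List.cons_append, List.cons.injEq] at g1
          obtain ⟨g4, g5⟩ := g1
          subst g4
          refine ⟨p', q ++ [y], j, ?_, ?_, ?_⟩
          · rw [g5]; simp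
          · rw [g2]; simp
          · rw [hh, g3, e2, e0 p']
            group
      · exfalso
        have hbig : (l ++ [y] ++ W₁ ++ FreeGroup.invRev (l ++ [y])).IsChain
            (fun x y => x ≠ nv y) := by
          rw [List.isChain_append, List.isChain_append]
          refine ⟨⟨hred, h1.1, ?_⟩, ?_, ?_⟩
          · intro a ha b hb
            have ea : a = y := by simpa using ha.symm
            subst ea
            intro hab
            apply c1
            cases W₁ with
            | nil => exact absurd rfl hne
            | cons w ws =>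
              have : w = b := by simpa using hb
              subst this
              exact ⟨ws, by rw [hab, nv_nv]⟩
          · have h5 : FreeGroup.IsReduced (FreeGroup.invRev (l ++ [y])) := by
              have h6 := FreeGroup.isReduced_toWord (x := h⁻¹)
              rw [FreeGroup.toWord_inv, hw] at h6
              exact h6
            exact isReduced_iff.1 h5
          · intro a ha b hb
            rw [List.getLast?_append_of_ne_nil _ hne] at ha
            have hb' : b = nv y := by
              have : (FreeGroup.invRev (l ++ [y])).head? = some (nv y) := by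
                simp [FreeGroup.invRev, nv]
              rw [this] at hb
              simpa using hb.symm
            subst hb'
            rw [nv_nv]
            intro hay
            apply c2
            subst hay
            exact ⟨_, (List.dropLast_append_getLast? a ha).symm⟩
        have hW2 : l ++ [y] ++ W₁ ++ FreeGroup.invRev (l ++ [y]) = W₂ := by
          apply eq_of_mk hbig h2.1
          rw [← he, mk_append, mk_append, ← FreeGroup.inv_mk, ← hw, FreeGroup.mk_toWord]
        obtain ⟨t, ts, ht⟩ : ∃ t ts, l ++ [y] = t :: ts := by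
          cases l with
          | nil => exact ⟨y, [], rfl⟩
          | cons t ts => exact ⟨t, ts ++ [y], rfl⟩
        have hlast : W₂.getLast? = some (nv t) := by
          have e5 : FreeGroup.invRev (t :: ts) = FreeGroup.invRev ts ++ [nv t] := by
            simp [FreeGroup.invRev, nv]
          rw [← hW2, ht, e5, ← List.append_assoc, List.getLast?_concat]
        have hhead : W₂.head? = some t := by
          rw [← hW2, ht]
          rfl
        exact h2.2 (nv t) (by rw [hlast]; rfl) t (by rw [hhead]; rfl) rfl

end Pool.Agent.Helper22.MC
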