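import Pool.Agent.Helper22.MC.M3
import Pool.Agent.Helper22.MC.M4

set_option autoImplicit false
set_option linter.unusedSectionVars false

/-! Words whose Whitehead graph has only large cuts. -/

namespace Pool.Agent.Helper22.MC

open Pool.Agent.Helper156.OF

section icut

variable {α : Type} [DecidableEq α]

/-- separated by `A` -/
abbrev cp (A : Finset (Option (Lt α))) : Option (Lt α) × Option (Lt α) → Bool :=
  fun t => decide (¬ (t.1 ∈ A ↔ t.2 ∈ A))

/-- number of inner turns cut by `A` -/
def icut (A : Finset (Option (Lt α))) : List (Lt α) → ℕ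
  | [] => 0
  | x :: xs => (tin (some x) xs).countP (cp A)

lemma icut_append (A : Finset (Option (Lt α))) (l m : List (Lt α)) :
    icut A l + icut A m ≤ icut A (l ++ m) := by
  cases l with
  | nil => simp [icut]
  | cons x xs =>
    cases m with
    | nil => simp [icut]
    | cons y ys =>
      simp only [icut, List.cons_append, tin_append, tin, List.countP_append, List.countP_cons]
      omega

lemma icut_flatMap {β : Type} (A : Finset (Option (Lt α))) (f : β → List (Lt α)) (b : List β) :
    (b.map fun c => icut A (f c)).sum ≤ icut A (b.flatMap f) := by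
  induction b with
  | nil => simp
  | cons c b ih =>
    simp only [List.map_cons, List.sum_cons, List.flatMap_cons]
    exact (Nat.add_le_add_left ih _).trans (icut_append A _ _)

lemma occ_flatMap {β : Type} (a : Lt α) (f : β → List (Lt α)) (b : List β) :
    occ a (b.flatMap f) = (b.map fun c => occ a (f c)).sum := by
  induction b with
  | nil => simp [occ]
  | cons c b ih => simp only [List.map_cons, List.sum_cons, List.flatMap_cons, occ_append, ih]

lemma icut_le_ccut (A : Finset (Option (Lt α))) (v : FreeGroup α) : icut A (cr v) ≤ ccut A v := by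
  unfold ccut
  cases cr v with
  | nil => simp [icut]
  | cons x xs =>
    show icut A (x :: xs) ≤ (tin (lastp none (x :: xs)) (x :: xs)).countP (cp A)
    simp only [icut, tin, List.countP_cons]
    exact Nat.le_add_right _ _

lemma icut_concat2 (A : Finset (Option (Lt α))) (l : List (Lt α)) (w z : Lt α) :
    icut A (l ++ [w] ++ [z]) = icut A (l ++ [w]) + if cp A (some w, some (nv z)) then 1 else 0 := by
  cases l with
  | nil => simp [icut, tin]
  | cons x xs =>
    simp only [icut, List.cons_append]
    rw [tin_append, List.countP_append, lastp_append]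
    simp only [lastp, tin, List.countP_cons, List.countP_nil, Nat.zero_add]

lemma invRev_cons (x : Lt α) (l : List (Lt α)) :
    FreeGroup.invRev (x :: l) = FreeGroup.invRev l ++ [nv x] := by
  simp [FreeGroup.invRev, nv]

lemma icut_invRev (A : Finset (Option (Lt α))) (l : List (Lt α)) :
    icut A (FreeGroup.invRev l) = icut A l := by
  induction l with
  | nil => rfl
  | cons x l ih =>
    cases l with
    | nil => simp [FreeGroup.invRev, icut, tin]
    | cons y ys =>
      rw [invRev_cons, invRev_cons, icut_concat2, ← invRev_cons, ih, nv_nv]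
      simp only [icut, tin, List.countP_cons]
      congr 1
      have : cp A (some (nv y), some x) = cp A (some x, some (nv y)) := by
        simp only [cp]
        rw [decide_eq_decide]
        tauto
      rw [this]

lemma occ_invRev (a : Lt α) (l : List (Lt α)) : occ a (FreeGroup.invRev l) = occ a l := by
  induction l with
  | nil => rfl
  | cons x l ih =>
    rw [invRev_cons, occ_append, ih]
    simp [occ, List.countP_cons, nv]

/-- commutator pattern -/
def Dw (y z : Lt α) : List (Lt α) := [y, z, nv y, nv z]

/-- repeated commutator pattern -/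
def rep (T : ℕ) (y z : Lt α) : List (Lt α) := (List.replicate (T + 1) (Dw y z)).flatten

/-- cyclic cuts of the commutator pattern -/
def kap (A : Finset (Option (Lt α))) (y z : Lt α) : ℕ :=
  (tin (some (nv z)) (Dw y z)).countP (cp A)

lemma icut_rep (A : Finset (Option (Lt α))) (T : ℕ) (y z : Lt α) :
    T * kap A y z ≤ icut A (rep T y z) := by
  have h1 := (tin_rep (Dw y z) (cp A) T (some (nv y))).1
  have h2 : rep T y z = y :: ([z, nv y, nv z] ++ (List.replicate T (Dw y z)).flatten) := by
    unfold rep
    rw [List.replicate_succ, List.flatten_cons]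
    rfl
  have h3 : icut A (rep T y z) =
      (tin (some (nv y)) (List.replicate (T + 1) (Dw y z)).flatten).countP (cp A) := by
    change icut A (rep T y z) = (tin (some (nv y)) (rep T y z)).countP (cp A)
    rw [h2]
    simp only [icut, tin, List.countP_cons]
    simp
  rw [h3, h1]
  have h4 : lastp none (Dw y z) = some (nv z) := rfl
  rw [h4]
  exact Nat.le_add_left _ _

/-- the two vertices of an index are separated -/
def sp (A : Finset (Option (Lt α))) (i : α) : Prop := ¬ (some (i, true) ∈ A ↔ some (i, false) ∈ A)

lemma kap_eq (A : Finset (Option (Lt α))) (i j : α) :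
    kap A (i, true) (j, true) =
      (if cp A (some (j, false), some (i, false)) then 1 else 0) +
      (if cp A (some (i, true), some (j, false)) then 1 else 0) +
      (if cp A (some (j, true), some (i, true)) then 1 else 0) +
      (if cp A (some (i, false), some (j, true)) then 1 else 0) := by
  simp only [kap, Dw, tin, nv, List.countP_cons, List.countP_nil, Bool.not_true, Bool.not_false]
  omega

lemma kap_sp (A : Finset (Option (Lt α))) (i j : α) (h : sp A i ∨ sp A j) :
    2 ≤ kap A (i, true) (j, true) := by
  rw [kap_eq]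
  unfold sp at h
  by_cases h1 : (some (i, true) : Option (Lt α)) ∈ A <;>
  by_cases h2 : (some (i, false) : Option (Lt α)) ∈ A <;>
  by_cases h3 : (some (j, true) : Option (Lt α)) ∈ A <;>
  by_cases h4 : (some (j, false) : Option (Lt α)) ∈ A <;>
  simp_all [cp]

lemma kap_diff (A : Finset (Option (Lt α))) (i j : α)
    (h : ¬ ((some (i, true) : Option (Lt α)) ∈ A ↔ (some (j, true) : Option (Lt α)) ∈ A)) :
    2 ≤ kap A (i, true) (j, true) := by
  rw [kap_eq]
  by_cases h1 : (some (i, true) : Option (Lt α)) ∈ A <;>
  by_cases h2 : (some (i, false) : Option (Lt α)) ∈ A <;>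
  by_cases h3 : (some (j, true) : Option (Lt α)) ∈ A <;>
  by_cases h4 : (some (j, false) : Option (Lt α)) ∈ A <;>
  simp_all [cp]

lemma sum_gap {β : Type} (Q : List β) (f g : β → ℕ) (c : ℕ) (h : ∀ p ∈ Q, f p ≤ g p) (p₀ : β)
    (hp : p₀ ∈ Q) (h0 : f p₀ + c ≤ g p₀) : (Q.map f).sum + c ≤ (Q.map g).sum := by
  induction Q with
  | nil => simp at hp
  | cons q Q ih =>
    simp only [List.map_cons, List.sum_cons]
    have h1 := h q (by simp)
    rcases List.mem_cons.1 hp with rfl | hp
    · have h2 : (Q.map f).sum ≤ (Q.map g).sum := by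
        apply List.sum_le_sum
        intro i hi
        exact h i (List.mem_cons_of_mem _ hi)
      omega
    · have := ih (fun p hp => h p (List.mem_cons_of_mem _ hp)) hp
      omega

/-- the long balanced word -/
def Sw (T : ℕ) (s e : Lt α) (Q : List (α × α)) : List (Lt α) :=
  Q.flatMap fun p => s :: (rep T (p.1, true) (p.2, true) ++ [e])

lemma icut_Sw (A : Finset (Option (Lt α))) (T : ℕ) (s e : Lt α) (Q : List (α × α)) :
    (Q.map fun p => T * kap A (p.1, true) (p.2, true)).sum ≤ icut A (Sw T s e Q) := by
  refine le_trans ?_ (icut_flatMap A _ Q)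
  apply List.sum_le_sum
  intro p _
  refine (icut_rep A T _ _).trans ?_
  have h1 := icut_append A (rep T (p.1, true) (p.2, true)) [e]
  have h2 := icut_append A [s] (rep T (p.1, true) (p.2, true) ++ [e])
  have h3 : [s] ++ (rep T (p.1, true) (p.2, true) ++ [e]) =
      s :: (rep T (p.1, true) (p.2, true) ++ [e]) := rfl
  rw [h3] at h2
  omega

lemma occ_Sw_le (a : Lt α) (T : ℕ) (s e : Lt α) (Q : List (α × α)) (hne : ∀ p ∈ Q, p.1 ≠ p.2) :
    occ a (Sw T s e Q) ≤ (Q.map fun p => if p.1 = a.1 ∨ p.2 = a.1 then 2 * T else 0).sum +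
      4 * Q.length := by
  unfold Sw
  rw [occ_flatMap]
  induction Q with
  | nil => simp
  | cons p Q ih =>
    have ih' := ih (fun q hq => hne q (List.mem_cons_of_mem _ hq))
    simp only [List.map_cons, List.sum_cons, List.length_cons]
    have h1 : occ a (s :: (rep T (p.1, true) (p.2, true) ++ [e])) ≤
        (if p.1 = a.1 ∨ p.2 = a.1 then 2 * T else 0) + 4 := by
      have h2 : s :: (rep T (p.1, true) (p.2, true) ++ [e]) =
        [s] ++ (rep T (p.1, true) (p.2, true) ++ [e]) := rfl
      rw [h2, occ_append, occ_append]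
      have h3 : ∀ x : Lt α, occ a [x] ≤ 1 := by
        intro x
        have := List.countP_le_length (p := fun y : Lt α => decide (y.1 = a.1)) (l := [x])
        simpa [occ] using this
      have h4 := h3 s
      have h5 := h3 e
      have h6 : occ a (rep T (p.1, true) (p.2, true)) =
          (T + 1) * ((if p.1 = a.1 then 2 else 0) + (if p.2 = a.1 then 2 else 0)) := by
        unfold rep
        rw [occ_rep]
        congr 1
        simp only [occ, Dw, nv, List.countP_cons, List.countP_nil, decide_eq_true_eq]
        split_ifs <;> rfl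
      rw [h6]
      have h7 := hne p (by simp)
      by_cases c1 : p.1 = a.1
      · have c2 : p.2 ≠ a.1 := fun h => h7 (c1.trans h.symm)
        simp only [c1, c2, if_true, if_false, true_or]
        omega
      · by_cases c2 : p.2 = a.1
        · simp only [c1, c2, if_true, if_false, or_true]
          omega
        · simp only [c1, c2, if_false, or_self]
          omega
    omega

lemma Sw_gap [Fintype α] (h3 : 3 ≤ Fintype.card α) (T : ℕ) (s e : Lt α) (Q : List (α × α))
    (hT : 2 * Q.length + 10 ≤ T) (hne : ∀ p ∈ Q, p.1 ≠ p.2)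
    (hQ : ∀ j k : α, j ≠ k → (j, k) ∈ Q ∨ (k, j) ∈ Q) (A : Finset (Option (Lt α))) (a : Lt α)
    (hA : Va A a) (t1 : ∃ b : Lt α, b.1 ≠ a.1 ∧ some b ∈ A)
    (t2 : ∃ b : Lt α, b.1 ≠ a.1 ∧ some b ∉ A) :
    occ a (Sw T s e Q) + 20 ≤ icut A (Sw T s e Q) := by
  have hspa : sp A a.1 := by
    obtain ⟨h1, h2⟩ := hA
    unfold sp
    obtain ⟨i, b⟩ := a
    cases b
    · simp only [nv, Bool.not_false] at h2
      tauto
    · simp only [nv, Bool.not_true] at h2
      tauto
  obtain ⟨b, hb, hbA⟩ := t1
  obtain ⟨c, hc, hcA⟩ := t2
  -- an extra pair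
  obtain ⟨j, k, hjk, hj, hk, hkap⟩ : ∃ j k : α, j ≠ k ∧ j ≠ a.1 ∧ k ≠ a.1 ∧
      (sp A j ∨ sp A k ∨ ¬ ((some (j, true) : Option (Lt α)) ∈ A ↔
        (some (k, true) : Option (Lt α)) ∈ A)) := by
    by_cases hbc : b.1 = c.1
    · obtain ⟨k, hk⟩ : ∃ k : α, k ∉ ({a.1, b.1} : Finset α) := by
        by_contra hcon
        push Not at hcon
        have h4 : (Finset.univ : Finset α) ⊆ {a.1, b.1} := fun x _ => hcon x
        have h5 := Finset.card_le_card h4
        have h6 := Finset.card_le_two (a := a.1) (b := b.1)
        rw [Finset.card_univ] at h5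
        omega
      simp only [Finset.mem_insert, Finset.mem_singleton, not_or] at hk
      refine ⟨b.1, k, fun h => hk.2 h.symm, hb, hk.1, Or.inl ?_⟩
      unfold sp
      rcases fst_eq_iff.1 hbc with h | h
      · exact absurd (h ▸ hbA) hcA
      · obtain ⟨i, x⟩ := c
        subst h
        cases x <;> simp only [nv, Bool.not_false, Bool.not_true] at hbA ⊢ <;> tauto
    · refine ⟨b.1, c.1, hbc, hb, hc, ?_⟩
      by_cases s1 : sp A b.1
      · exact Or.inl s1
      · by_cases s2 : sp A c.1
        · exact Or.inr (Or.inl s2)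
        · refine Or.inr (Or.inr ?_)
          unfold sp at s1 s2
          obtain ⟨i, x⟩ := b
          obtain ⟨i', x'⟩ := c
          cases x <;> cases x' <;> simp only at hbA hcA s1 s2 ⊢ <;> tauto
  obtain ⟨p₀, hp₀, hne1, hne2, hk0⟩ : ∃ p₀ ∈ Q, p₀.1 ≠ a.1 ∧ p₀.2 ≠ a.1 ∧
      2 ≤ kap A (p₀.1, true) (p₀.2, true) := by
    rcases hQ j k hjk with h | h
    · refine ⟨_, h, hj, hk, ?_⟩
      rcases hkap with h | h | h
      · exact kap_sp A j k (Or.inl h)
      · exact kap_sp A j k (Or.inr h)
      · exact kap_diff A j k h
    · refine ⟨_, h, hk, hj, ?_⟩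
      rcases hkap with h | h | h
      · exact kap_sp A k j (Or.inr h)
      · exact kap_sp A k j (Or.inl h)
      · exact kap_diff A k j (fun h' => h h'.symm)
  have g1 := occ_Sw_le a T s e Q hne
  have g2 := icut_Sw A T s e Q
  have g3 := sum_gap Q (fun p => if p.1 = a.1 ∨ p.2 = a.1 then 2 * T else 0)
    (fun p => T * kap A (p.1, true) (p.2, true)) (2 * T) (by
      intro p _
      split_ifs with h
      · have : 2 ≤ kap A (p.1, true) (p.2, true) := by
          apply kap_sp
          rcases h with h | h
          · rw [h]; exact Or.inl hspa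
          · rw [h]; exact Or.inr hspa
        nlinarith
      · exact Nat.zero_le _) p₀ hp₀ (by
      simp only [hne1, hne2, or_self, if_false]
      nlinarith)
  omega

end icut

end Pool.Agent.Helper22.MC
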