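import Pool.Agent.Helper22.MC.M5

set_option autoImplicit false
set_option linter.unusedSectionVars false

/-! The two block words. -/

namespace Pool.Agent.Helper22.MC

open Pool.Agent.Helper156.OF

section alt

variable {α : Type} [DecidableEq α]

/-- adjacent letters belong to different generators; start and end letter -/
structure AltSE (l : List (Lt α)) (s e : Lt α) : Prop where
  ch : l.IsChain (fun x y => x.1 ≠ y.1)
  hd : l.head? = some s
  ls : l.getLast? = some e

lemma AltSE.append {l l' : List (Lt α)} {s e s' e' : Lt α} (h : AltSE l s e) (h' : AltSE l' s' e')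
    (hne : e.1 ≠ s'.1) : AltSE (l ++ l') s e' where
  ch := by
    rw [List.isChain_append]
    refine ⟨h.ch, h'.ch, ?_⟩
    intro x hx y hy
    rw [h.ls] at hx
    rw [h'.hd] at hy
    have e1 : x = e := by simpa using hx.symm
    have e2 : y = s' := by simpa using hy.symm
    rw [e1, e2]
    exact hne
  hd := by rw [List.head?_append, h.hd]; rfl
  ls := by rw [List.getLast?_append, h'.ls]; rfl

lemma AltSE.single (x : Lt α) : AltSE [x] x x := ⟨by simp, rfl, rfl⟩

lemma AltSE.Dw {y z : Lt α} (h : y.1 ≠ z.1) : AltSE (Dw y z) y (nv z) where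
  ch := by
    simp only [MC.Dw, List.isChain_cons_cons, nv_fst, List.isChain_singleton, and_true]
    exact ⟨h, h.symm, h⟩
  hd := rfl
  ls := rfl

lemma AltSE.rep {y z : Lt α} (h : y.1 ≠ z.1) (T : ℕ) : AltSE (rep T y z) y (nv z) := by
  induction T with
  | zero =>
    have : MC.rep 0 y z = MC.Dw y z := by simp [MC.rep]
    rw [this]
    exact AltSE.Dw h
  | succ T ih =>
    have : MC.rep (T + 1) y z = MC.Dw y z ++ MC.rep T y z := by
      unfold MC.rep
      rw [List.replicate_succ, List.flatten_cons]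
    rw [this]
    exact (AltSE.Dw h).append ih (by simpa using h.symm)

lemma AltSE.Sw (T : ℕ) (s e : Lt α) (hes : e.1 ≠ s.1) (Q : List (α × α)) (hQ : Q ≠ [])
    (h : ∀ p ∈ Q, p.1 ≠ p.2 ∧ s.1 ≠ p.1 ∧ p.2 ≠ e.1) : AltSE (Sw T s e Q) s e := by
  induction Q with
  | nil => exact absurd rfl hQ
  | cons p Q ih =>
    obtain ⟨h1, h2, h3⟩ := h p (by simp)
    have hb : AltSE (s :: (MC.rep T (p.1, true) (p.2, true) ++ [e])) s e := by
      have e1 : s :: (MC.rep T (p.1, true) (p.2, true) ++ [e]) =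
        [s] ++ (MC.rep T (p.1, true) (p.2, true) ++ [e]) := rfl
      rw [e1]
      refine (AltSE.single s).append ((AltSE.rep (y := (p.1, true)) (z := (p.2, true)) h1 T).append
        (AltSE.single e) ?_) h2
      exact h3
    have e2 : MC.Sw T s e (p :: Q) =
        (s :: (MC.rep T (p.1, true) (p.2, true) ++ [e])) ++ MC.Sw T s e Q := by
      simp [MC.Sw]
    rw [e2]
    by_cases hQ' : Q = []
    · subst hQ'
      have : MC.Sw T s e ([] : List (α × α)) = [] := rfl
      rw [this, List.append_nil]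
      exact hb
    · exact hb.append (ih hQ' (fun q hq => h q (List.mem_cons_of_mem _ hq))) hes

lemma invRev_append (l m : List (Lt α)) :
    FreeGroup.invRev (l ++ m) = FreeGroup.invRev m ++ FreeGroup.invRev l := by
  simp [FreeGroup.invRev]

lemma AltSE.invRev {l : List (Lt α)} {s e : Lt α} (h : AltSE l s e) :
    AltSE (FreeGroup.invRev l) (nv e) (nv s) where
  ch := by
    have h1 := h.ch
    unfold FreeGroup.invRev
    rw [List.isChain_reverse, List.isChain_map]
    refine h1.imp ?_
    intro a b hab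
    exact fun h' => hab h'.symm
  hd := by
    have h1 := h.ls
    unfold FreeGroup.invRev
    rw [List.head?_reverse, List.getLast?_map, h1]
    rfl
  ls := by
    have h1 := h.hd
    unfold FreeGroup.invRev
    rw [List.getLast?_reverse, List.head?_map, h1]
    rfl

lemma length_Sw (T : ℕ) (s e : Lt α) (Q : List (α × α)) :
    (Sw T s e Q).length = Q.length * (4 * (T + 1) + 2) := by
  unfold Sw
  induction Q with
  | nil => simp
  | cons p Q ih =>
    rw [List.flatMap_cons, List.length_append, ih]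
    simp only [rep, List.length_cons, List.length_append, List.length_flatten, List.map_replicate,
      List.sum_replicate, Dw, List.length_nil, smul_eq_mul]
    ring

end alt

section blocks

variable (m : ℕ)

/-- index 0 -/
def i0 : Fin (m + 3) := ⟨0, by omega⟩
/-- index 1 -/
def i1 : Fin (m + 3) := ⟨1, by omega⟩
/-- index 2 -/
def i2 : Fin (m + 3) := ⟨2, by omega⟩

lemma i01 : i0 m ≠ i1 m := by simp [i0, i1]
lemma i02 : i0 m ≠ i2 m := by simp [i0, i2]
lemma i12 : i1 m ≠ i2 m := by simp [i1, i2]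

/-- pairs of indices -/
noncomputable def PQ : List (Fin (m + 3) × Fin (m + 3)) :=
  (Finset.univ.filter (fun p : Fin (m + 3) × Fin (m + 3) =>
    p.1 ≠ p.2 ∧ p.1 ≠ i0 m ∧ p.2 ≠ i1 m)).toList

lemma mem_PQ (p : Fin (m + 3) × Fin (m + 3)) :
    p ∈ PQ m ↔ p.1 ≠ p.2 ∧ p.1 ≠ i0 m ∧ p.2 ≠ i1 m := by
  simp [PQ]

/-- swapped pairs -/
noncomputable def PQ' : List (Fin (m + 3) × Fin (m + 3)) := (PQ m).map Prod.swap

lemma mem_PQ' (p : Fin (m + 3) × Fin (m + 3)) :
    p ∈ PQ' m ↔ p.2 ≠ p.1 ∧ p.2 ≠ i0 m ∧ p.1 ≠ i1 m := by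
  unfold PQ'
  rw [List.mem_map]
  constructor
  · rintro ⟨q, hq, rfl⟩
    exact (mem_PQ m q).1 hq
  · intro h
    exact ⟨p.swap, (mem_PQ m _).2 h, Prod.swap_swap p⟩

lemma PQ_total (j k : Fin (m + 3)) (h : j ≠ k) : (j, k) ∈ PQ m ∨ (k, j) ∈ PQ m := by
  rw [mem_PQ, mem_PQ]
  have := i01 m
  by_cases h1 : j = i0 m
  · right
    subst h1
    exact ⟨h.symm, h.symm, this⟩
  · by_cases h2 : k = i1 m
    · right
      subst h2
      exact ⟨h.symm, this.symm, h⟩
    · exact Or.inl ⟨h, h1, h2⟩

lemma PQ'_total (j k : Fin (m + 3)) (h : j ≠ k) : (j, k) ∈ PQ' m ∨ (k, j) ∈ PQ' m := by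
  rw [mem_PQ', mem_PQ']
  rcases PQ_total m j k h with h | h
  · right; exact (mem_PQ m _).1 h
  · left; exact (mem_PQ m _).1 h

lemma PQ_ne : PQ m ≠ [] := by
  intro h
  have : (i1 m, i0 m) ∈ PQ m := (mem_PQ m _).2 ⟨(i01 m).symm, (i01 m).symm, i01 m⟩
  rw [h] at this
  simp at this

lemma PQ'_ne : PQ' m ≠ [] := by
  intro h
  exact PQ_ne m (List.map_eq_nil_iff.1 h)

/-- number of repetitions -/
noncomputable def TT : ℕ := 2 * (PQ m).length + 10

/-- half-length of the blocks -/
noncomputable def sg0 : ℕ := (PQ m).length * (4 * (TT m + 1) + 2)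

lemma sg0_pos : 30 ≤ sg0 m := by
  have h1 : 1 ≤ (PQ m).length := List.length_pos_iff.2 (PQ_ne m)
  have h2 : 10 ≤ TT m := by unfold TT; omega
  unfold sg0
  calc 30 ≤ 1 * (4 * (TT m + 1) + 2) := by omega
    _ ≤ _ := Nat.mul_le_mul_right _ h1

/-- block length -/
noncomputable def LL : ℕ := 2 * sg0 m + 10

/-- the long words at both ends of a block -/
noncomputable def wd : Lt (Fin 2) → List (Lt (Fin (m + 3)))
  | (0, true) => Sw (TT m) (i0 m, true) (i1 m, false) (PQ m)
  | (0, false) => FreeGroup.invRev (Sw (TT m) (i0 m, true) (i1 m, false) (PQ m))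
  | (1, true) => Sw (TT m) (i1 m, false) (i0 m, true) (PQ' m)
  | (1, false) => FreeGroup.invRev (Sw (TT m) (i1 m, false) (i0 m, true) (PQ' m))

/-- start letter -/
def sl : Lt (Fin 2) → Lt (Fin (m + 3))
  | (0, true) => (i0 m, true)
  | (0, false) => (i1 m, true)
  | (1, true) => (i1 m, false)
  | (1, false) => (i0 m, false)

/-- end letter -/
def el : Lt (Fin 2) → Lt (Fin (m + 3))
  | (0, true) => (i1 m, false)
  | (0, false) => (i0 m, false)
  | (1, true) => (i0 m, true)
  | (1, false) => (i1 m, true)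

/-- marker letter -/
def zl (c : Lt (Fin 2)) : Lt (Fin (m + 3)) := (i2 m, c.2)

/-- inside of the marker -/
def mid : Lt (Fin 2) → List (Lt (Fin (m + 3)))
  | (0, true) => [(i2 m, true), (i2 m, true), (i2 m, true), (i2 m, true), (i2 m, true),
      (i0 m, true), (i2 m, true), (i2 m, true)]
  | (0, false) => [(i2 m, false), (i2 m, false), (i0 m, false), (i2 m, false), (i2 m, false),
      (i2 m, false), (i2 m, false), (i2 m, false)]
  | (1, true) => [(i2 m, true), (i2 m, true), (i2 m, true), (i2 m, true), (i0 m, true),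
      (i2 m, true), (i2 m, true), (i2 m, true)]
  | (1, false) => [(i2 m, false), (i2 m, false), (i2 m, false), (i0 m, false), (i2 m, false),
      (i2 m, false), (i2 m, false), (i2 m, false)]

/-- the blocks -/
noncomputable def blk (c : Lt (Fin 2)) : List (Lt (Fin (m + 3))) :=
  (wd m c ++ [zl m c]) ++ (mid m c ++ ([zl m c] ++ wd m c))

lemma four (P : Lt (Fin 2) → Prop) (h1 : P (0, true)) (h2 : P (0, false)) (h3 : P (1, true))
    (h4 : P (1, false)) (c : Lt (Fin 2)) : P c := by
  obtain ⟨i, b⟩ := c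
  fin_cases i <;> cases b <;> assumption

lemma alt_St : AltSE (Sw (TT m) (i0 m, true) (i1 m, false) (PQ m)) (i0 m, true) (i1 m, false) := by
  refine AltSE.Sw _ _ _ (i01 m).symm _ (PQ_ne m) ?_
  intro p hp
  obtain ⟨h1, h2, h3⟩ := (mem_PQ m p).1 hp
  exact ⟨h1, h2.symm, h3⟩

lemma alt_Sf : AltSE (Sw (TT m) (i1 m, false) (i0 m, true) (PQ' m)) (i1 m, false) (i0 m, true) := by
  refine AltSE.Sw _ _ _ (i01 m) _ (PQ'_ne m) ?_
  intro p hp
  obtain ⟨h1, h2, h3⟩ := (mem_PQ' m p).1 hp
  exact ⟨h1.symm, h3.symm, h2⟩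

lemma alt_wd (c : Lt (Fin 2)) : AltSE (wd m c) (sl m c) (el m c) := by
  refine four (fun c => AltSE (wd m c) (sl m c) (el m c)) ?_ ?_ ?_ ?_ c
  · exact alt_St m
  · exact (alt_St m).invRev
  · exact alt_Sf m
  · exact (alt_Sf m).invRev

lemma len_wd (c : Lt (Fin 2)) : (wd m c).length = sg0 m := by
  refine four (fun c => (wd m c).length = sg0 m) ?_ ?_ ?_ ?_ c
  · exact length_Sw _ _ _ _
  · show (FreeGroup.invRev _).length = _
    rw [FreeGroup.invRev_length]
    exact length_Sw _ _ _ _
  · show (Sw _ _ _ _).length = _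
    rw [length_Sw]
    simp [PQ', sg0]
  · show (FreeGroup.invRev _).length = _
    rw [FreeGroup.invRev_length, length_Sw]
    simp [PQ', sg0]

lemma len_mid (c : Lt (Fin 2)) : (mid m c).length = 8 := by
  refine four (fun c => (mid m c).length = 8) ?_ ?_ ?_ ?_ c <;> rfl

lemma len_blk (c : Lt (Fin 2)) : (blk m c).length = LL m := by
  unfold blk LL
  simp only [List.length_append, len_wd, len_mid, List.length_cons, List.length_nil]
  omega

lemma wd_nv (c : Lt (Fin 2)) : wd m (nv c) = FreeGroup.invRev (wd m c) := by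
  refine four (fun c => wd m (nv c) = FreeGroup.invRev (wd m c)) ?_ ?_ ?_ ?_ c
  · rfl
  · exact FreeGroup.invRev_invRev.symm
  · rfl
  · exact FreeGroup.invRev_invRev.symm

lemma mid_nv (c : Lt (Fin 2)) : mid m (nv c) = FreeGroup.invRev (mid m c) := by
  refine four (fun c => mid m (nv c) = FreeGroup.invRev (mid m c)) ?_ ?_ ?_ ?_ c <;> rfl

lemma blk_nv (c : Lt (Fin 2)) : blk m (nv c) = FreeGroup.invRev (blk m c) := by
  unfold blk
  have hz : FreeGroup.invRev [zl m c] = [zl m (nv c)] := rfl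
  simp only [invRev_append, wd_nv, mid_nv, hz, List.append_assoc]

lemma el_nv (c : Lt (Fin 2)) : el m (nv c) = nv (sl m c) := by
  refine four (fun c => el m (nv c) = nv (sl m c)) ?_ ?_ ?_ ?_ c <;> rfl

lemma el_inj {c c' : Lt (Fin 2)} (h : el m c = el m c') : c = c' := by
  have h01 := i01 m
  have h10 := (i01 m).symm
  revert h
  refine four (fun c => el m c = el m c' → c = c') ?_ ?_ ?_ ?_ c <;>
  refine four (fun c' => el m _ = el m c' → _ = c') ?_ ?_ ?_ ?_ c' <;>
  simp [el, h01, h10]

lemma junction {c c' : Lt (Fin 2)} (h : c ≠ nv c') : el m c ≠ nv (sl m c') := by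
  rw [← el_nv]
  exact fun h' => h (el_inj m h')

lemma el_ne_z (c : Lt (Fin 2)) : (el m c).1 ≠ i2 m := by
  refine four (fun c => (el m c).1 ≠ i2 m) ?_ ?_ ?_ ?_ c
  · exact i12 m
  · exact i02 m
  · exact i02 m
  · exact i12 m

lemma sl_ne_z (c : Lt (Fin 2)) : i2 m ≠ (sl m c).1 := by
  refine four (fun c => i2 m ≠ (sl m c).1) ?_ ?_ ?_ ?_ c
  · exact (i02 m).symm
  · exact (i12 m).symm
  · exact (i12 m).symm
  · exact (i02 m).symm

lemma alt_left (c : Lt (Fin 2)) : AltSE (wd m c ++ [zl m c]) (sl m c) (zl m c) :=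
  (alt_wd m c).append (AltSE.single _) (el_ne_z m c)

lemma alt_right (c : Lt (Fin 2)) : AltSE ([zl m c] ++ wd m c) (zl m c) (el m c) :=
  (AltSE.single _).append (alt_wd m c) (sl_ne_z m c)

lemma alt_red {α : Type} {l : List (Lt α)} (h : l.IsChain (fun x y => x.1 ≠ y.1)) :
    l.IsChain (fun x y => x ≠ nv y) :=
  h.imp fun a b hab h' => hab (by rw [h', nv_fst])

lemma mid_ends (c : Lt (Fin 2)) : (mid m c).IsChain (fun x y => x ≠ nv y) ∧
    (mid m c).head? = some (zl m c) ∧ (mid m c).getLast? = some (zl m c) := by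
  have h02 := i02 m
  have h20 := (i02 m).symm
  refine four (fun c => (mid m c).IsChain (fun x y => x ≠ nv y) ∧
    (mid m c).head? = some (zl m c) ∧ (mid m c).getLast? = some (zl m c)) ?_ ?_ ?_ ?_ c <;>
  simp [mid, zl, nv, h02, h20]

lemma blk_ends (c : Lt (Fin 2)) : (blk m c).IsChain (fun x y => x ≠ nv y) ∧
    (blk m c).head? = some (sl m c) ∧ (blk m c).getLast? = some (el m c) := by
  obtain ⟨h1, h2, h3⟩ := mid_ends m c
  have hl := alt_left m c
  have hr := alt_right m c
  unfold blk
  refine ⟨?_, ?_, ?_⟩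
  · refine List.isChain_append.2 ⟨alt_red hl.ch,
      List.isChain_append.2 ⟨h1, alt_red hr.ch, ?_⟩, ?_⟩
    · intro x hx y hy
      rw [h3] at hx
      rw [hr.hd] at hy
      have e1 : x = zl m c := by simpa using hx.symm
      have e2 : y = zl m c := by simpa using hy.symm
      rw [e1, e2]
      exact (nv_ne _).symm
    · intro x hx y hy
      rw [hl.ls] at hx
      rw [List.head?_append, h2] at hy
      have e1 : x = zl m c := by simpa using hx.symm
      have e2 : y = zl m c := by simpa using hy.symm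
      rw [e1, e2]
      exact (nv_ne _).symm
  · rw [List.head?_append, hl.hd]; rfl
  · rw [List.getLast?_append, List.getLast?_append, hr.ls]; rfl

/-- words in the blocks -/
noncomputable def Wb (b : List (Lt (Fin 2))) : List (Lt (Fin (m + 3))) := b.flatMap (blk m)

lemma Wb_cons (c : Lt (Fin 2)) (b : List (Lt (Fin 2))) : Wb m (c :: b) = blk m c ++ Wb m b := rfl

lemma Wb_append (b b' : List (Lt (Fin 2))) : Wb m (b ++ b') = Wb m b ++ Wb m b' := by
  simp [Wb]

lemma len_Wb (b : List (Lt (Fin 2))) : (Wb m b).length = b.length * LL m := by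
  induction b with
  | nil => simp [Wb]
  | cons c b ih =>
    rw [Wb_cons, List.length_append, ih, len_blk, List.length_cons]
    ring

lemma Wb_head (c : Lt (Fin 2)) (b : List (Lt (Fin 2))) :
    (Wb m (c :: b)).head? = some (sl m c) := by
  rw [Wb_cons, List.head?_append, (blk_ends m c).2.1]; rfl

lemma Wb_last (b : List (Lt (Fin 2))) (c : Lt (Fin 2)) :
    (Wb m (b ++ [c])).getLast? = some (el m c) := by
  have : Wb m [c] = blk m c := by simp [Wb]
  rw [Wb_append, this, List.getLast?_append, (blk_ends m c).2.2]; rfl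

lemma Wb_red (b : List (Lt (Fin 2))) (h : b.IsChain (fun x y => x ≠ nv y)) :
    (Wb m b).IsChain (fun x y => x ≠ nv y) := by
  induction b with
  | nil => simp [Wb]
  | cons c b ih =>
    rw [Wb_cons, List.isChain_append]
    refine ⟨(blk_ends m c).1, ?_, ?_⟩
    · exact ih h.tail
    · intro x hx y hy
      rw [(blk_ends m c).2.2] at hx
      have e1 : x = el m c := by simpa using hx.symm
      cases b with
      | nil => simp [Wb] at hy
      | cons c' b =>
        rw [Wb_head] at hy
        have e2 : y = sl m c' := by simpa using hy.symm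
        rw [e1, e2]
        rw [List.isChain_cons_cons] at h
        exact junction m h.1

lemma Wb_CR (b : List (Lt (Fin 2))) (h : CR b) : CR (Wb m b) := by
  refine ⟨Wb_red m b h.1, ?_⟩
  intro x hx y hy
  rcases List.eq_nil_or_concat' b with rfl | ⟨b', c, rfl⟩
  · simp [Wb] at hx
  · rw [Wb_last] at hx
    have e1 : x = el m c := by simpa using hx.symm
    obtain ⟨d, b'', hd⟩ : ∃ d b'', b' ++ [c] = d :: b'' := by
      cases b' with
      | nil => exact ⟨c, [], rfl⟩
      | cons d t => exact ⟨d, t ++ [c], rfl⟩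
    rw [hd, Wb_head] at hy
    have e2 : y = sl m d := by simpa using hy.symm
    rw [e1, e2]
    apply junction
    apply h.2 c (by simp) d
    rw [hd]
    rfl

end blocks

end Pool.Agent.Helper22.MC
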