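import Pool.Agent.Helper22.MC.M6

set_option autoImplicit false
set_option linter.unusedSectionVars false

/-! Strict minimality and rigidity of products of blocks. -/

namespace Pool.Agent.Helper22.MC

open Pool.Agent.Helper156.OF

section cyc

variable {α : Type} [DecidableEq α]

lemma rc_eq {L : List (Lt α)} (h : CR L) : FreeGroup.reduceCyclically L = L := by
  cases L with
  | nil => simp
  | cons a t =>
    rcases List.eq_nil_or_concat' t with rfl | ⟨l, b, rfl⟩
    · simp
    · rw [FreeGroup.reduceCyclically.cons_append, if_neg]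
      · rfl
      · rintro ⟨h1, h2⟩
        have h3 : (a :: (l ++ [b])).getLast? = some b := by
          rw [← List.cons_append, List.getLast?_concat]
        refine h.2 b (by rw [h3]; rfl) a rfl ?_
        apply Prod.ext
        · exact h1
        · show b.2 = !a.2
          rw [← h2, Bool.not_not]

lemma cr_mk {L : List (Lt α)} (h : CR L) : cr (FreeGroup.mk L) = L := by
  unfold cr
  rw [FreeGroup.toWord_mk, (isReduced_iff.2 h.1).reduce_eq, rc_eq h]

lemma occ_le_length (a : Lt α) (l : List (Lt α)) : occ a l ≤ l.length :=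
  List.countP_le_length

end cyc

section sm

variable (m : ℕ)

lemma wd_gap (c : Lt (Fin 2)) (A : Finset (Option (Lt (Fin (m + 3))))) (a : Lt (Fin (m + 3)))
    (hA : Va A a) (t1 : ∃ b : Lt (Fin (m + 3)), b.1 ≠ a.1 ∧ some b ∈ A)
    (t2 : ∃ b : Lt (Fin (m + 3)), b.1 ≠ a.1 ∧ some b ∉ A) :
    occ a (wd m c) + 20 ≤ icut A (wd m c) := by
  have h3 : 3 ≤ Fintype.card (Fin (m + 3)) := by simp
  have hl : (PQ' m).length = (PQ m).length := by simp [PQ']
  have g1 := Sw_gap h3 (TT m) (i0 m, true) (i1 m, false) (PQ m) (by unfold TT; omega)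
    (fun p hp => ((mem_PQ m p).1 hp).1) (PQ_total m) A a hA t1 t2
  have g2 := Sw_gap h3 (TT m) (i1 m, false) (i0 m, true) (PQ' m) (by unfold TT; omega)
    (fun p hp => (((mem_PQ' m p).1 hp).1).symm) (PQ'_total m) A a hA t1 t2
  refine four (fun c => occ a (wd m c) + 20 ≤ icut A (wd m c)) ?_ ?_ ?_ ?_ c
  · exact g1
  · show occ a (FreeGroup.invRev _) + 20 ≤ icut A (FreeGroup.invRev _)
    rw [occ_invRev, icut_invRev]
    exact g1
  · exact g2
  · show occ a (FreeGroup.invRev _) + 20 ≤ icut A (FreeGroup.invRev _)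
    rw [occ_invRev, icut_invRev]
    exact g2

lemma blk_gap (c : Lt (Fin 2)) (A : Finset (Option (Lt (Fin (m + 3))))) (a : Lt (Fin (m + 3)))
    (hA : Va A a) (t1 : ∃ b : Lt (Fin (m + 3)), b.1 ≠ a.1 ∧ some b ∈ A)
    (t2 : ∃ b : Lt (Fin (m + 3)), b.1 ≠ a.1 ∧ some b ∉ A) :
    occ a (blk m c) + 1 ≤ icut A (blk m c) := by
  have h1 := wd_gap m c A a hA t1 t2
  unfold blk
  have h2 := icut_append A (wd m c ++ [zl m c]) (mid m c ++ ([zl m c] ++ wd m c))
  have h3 := icut_append A (wd m c) [zl m c]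
  have h4 := icut_append A (mid m c) ([zl m c] ++ wd m c)
  have h5 := icut_append A [zl m c] (wd m c)
  have h6 := occ_le_length a (mid m c)
  rw [len_mid] at h6
  have h7 := occ_le_length a [zl m c]
  rw [List.length_singleton] at h7
  simp only [occ_append]
  omega

lemma SM_Wb (b : List (Lt (Fin 2))) (hb : CR b) (hne : b ≠ []) : SM (FreeGroup.mk (Wb m b)) := by
  intro A a hA t1 t2
  have h1 := cyc_wh A a hA (FreeGroup.mk (Wb m b))
  have hcr := cr_mk (Wb_CR m b hb)
  have h2 := icut_le_ccut A (FreeGroup.mk (Wb m b))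
  rw [hcr] at h2
  have h3 : cocc a (FreeGroup.mk (Wb m b)) = (b.map fun c => occ a (blk m c)).sum := by
    unfold cocc
    rw [hcr]
    exact occ_flatMap a (blk m) b
  have h4 : (b.map fun c => icut A (blk m c)).sum ≤ icut A (Wb m b) :=
    icut_flatMap A (blk m) b
  obtain ⟨c, hc⟩ := List.exists_mem_of_ne_nil b hne
  have h5 := sum_gap b (fun c => occ a (blk m c)) (fun c => icut A (blk m c)) 1
    (fun c _ => (Nat.le_succ _).trans (blk_gap m c A a hA t1 t2)) c hc (blk_gap m c A a hA t1 t2)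
  omega

end sm

section pat

variable (m : ℕ)

/-- default letter -/
abbrev x0 : Lt (Fin (m + 3)) := (i0 m, true)

/-- default block letter -/
abbrev c0 : Lt (Fin 2) := (0, true)

lemma chain_getD {α : Type} {R : α → α → Prop} {l : List α} (h : l.IsChain R) (d : α) (r : ℕ)
    (hr : r + 1 < l.length) : R (l.getD r d) (l.getD (r + 1) d) := by
  rw [List.getD_eq_getElem _ _ (by omega), List.getD_eq_getElem _ _ hr]
  exact List.isChain_iff_getElem.1 h r hr

lemma blk_left (c : Lt (Fin 2)) (r : ℕ) (hr : r < sg0 m + 1) :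
    (blk m c).getD r (x0 m) = (wd m c ++ [zl m c]).getD r (x0 m) := by
  unfold blk
  rw [List.getD_append]
  rw [List.length_append, len_wd]
  exact hr

lemma blk_mid (c : Lt (Fin 2)) (j : ℕ) (hj : j < 8) :
    (blk m c).getD (sg0 m + 1 + j) (x0 m) = (mid m c).getD j (x0 m) := by
  unfold blk
  rw [List.getD_append_right, List.length_append, len_wd, List.length_singleton,
    Nat.add_sub_cancel_left, List.getD_append]
  · rw [len_mid]; exact hj
  · rw [List.length_append, len_wd, List.length_singleton]; omega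

lemma blk_right (c : Lt (Fin 2)) (j : ℕ) :
    (blk m c).getD (sg0 m + 9 + j) (x0 m) = ([zl m c] ++ wd m c).getD j (x0 m) := by
  unfold blk
  rw [List.getD_append_right, List.length_append, len_wd, List.length_singleton,
    List.getD_append_right, len_mid]
  · congr 1; omega
  · rw [len_mid]; omega
  · rw [List.length_append, len_wd, List.length_singleton]; omega

lemma blk_alt (c : Lt (Fin 2)) (r : ℕ) (hr : r < sg0 m ∨ (sg0 m + 9 ≤ r ∧ r + 1 < LL m)) :
    ((blk m c).getD r (x0 m)).1 ≠ ((blk m c).getD (r + 1) (x0 m)).1 := by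
  rcases hr with hr | ⟨h1, h2⟩
  · rw [blk_left m c r (by omega), blk_left m c (r + 1) (by omega)]
    exact chain_getD (alt_left m c).ch _ r (by
      rw [List.length_append, len_wd, List.length_singleton]; omega)
  · obtain ⟨j, rfl⟩ := Nat.exists_eq_add_of_le h1
    rw [blk_right, show sg0 m + 9 + j + 1 = sg0 m + 9 + (j + 1) by omega, blk_right]
    refine chain_getD (alt_right m c).ch _ j ?_
    rw [List.length_append, len_wd, List.length_singleton]
    unfold LL at h2
    omega

lemma blk_z (c : Lt (Fin 2)) (j : ℕ) (hj : j = 0 ∨ j = 1 ∨ j = 2 ∨ j = 7 ∨ j = 8 ∨ j = 9) :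
    (blk m c).getD (sg0 m + j) (x0 m) = zl m c := by
  have hm : ∀ c, (mid m c).getD 0 (x0 m) = zl m c ∧ (mid m c).getD 1 (x0 m) = zl m c ∧
      (mid m c).getD 6 (x0 m) = zl m c ∧ (mid m c).getD 7 (x0 m) = zl m c := by
    intro c
    refine four (fun c => (mid m c).getD 0 (x0 m) = zl m c ∧ (mid m c).getD 1 (x0 m) = zl m c ∧
      (mid m c).getD 6 (x0 m) = zl m c ∧ (mid m c).getD 7 (x0 m) = zl m c) ?_ ?_ ?_ ?_ c <;>
    exact ⟨rfl, rfl, rfl, rfl⟩
  obtain ⟨m1, m2, m3, m4⟩ := hm c
  rcases hj with rfl | rfl | rfl | rfl | rfl | rfl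
  · show (blk m c).getD (sg0 m) (x0 m) = zl m c
    rw [blk_left m c _ (by omega), List.getD_append_right]
    · rw [len_wd, Nat.sub_self]; rfl
    · rw [len_wd]
  · exact (blk_mid m c 0 (by norm_num)).trans m1
  · exact (blk_mid m c 1 (by norm_num)).trans m2
  · rw [show sg0 m + 7 = sg0 m + 1 + 6 by omega]
    exact (blk_mid m c 6 (by norm_num)).trans m3
  · rw [show sg0 m + 8 = sg0 m + 1 + 7 by omega]
    exact (blk_mid m c 7 (by norm_num)).trans m4
  · exact blk_right m c 0

lemma LL_pos : 0 < LL m := by unfold LL; omega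

lemma Wb_getD (b : List (Lt (Fin 2))) : ∀ q, q < b.length * LL m →
    (Wb m b).getD q (x0 m) = (blk m (b.getD (q / LL m) c0)).getD (q % LL m) (x0 m) := by
  induction b with
  | nil => intro q hq; simp at hq
  | cons c b ih =>
    intro q hq
    have hL := LL_pos m
    rw [Wb_cons]
    by_cases h : q < LL m
    · rw [List.getD_append _ _ _ _ (by rw [len_blk]; exact h), Nat.div_eq_of_lt h,
        Nat.mod_eq_of_lt h]
      rfl
    · push Not at h
      rw [List.getD_append_right _ _ _ _ (by rw [len_blk]; exact h), len_blk]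
      have h1 : q - LL m < b.length * LL m := by
        rw [List.length_cons, Nat.add_mul, Nat.one_mul] at hq
        omega
      rw [ih _ h1]
      have h2 : q / LL m = (q - LL m) / LL m + 1 := by
        rw [Nat.div_eq_sub_div hL h]
      have h3 : q % LL m = (q - LL m) % LL m := Nat.mod_eq_sub_mod h
      rw [h2, h3]
      rfl

/-- cyclic letters -/
noncomputable def G (b : List (Lt (Fin 2))) (q : ℕ) : Lt (Fin (m + 3)) :=
  (Wb m b).getD (q % (b.length * LL m)) (x0 m)

lemma G_alt (b : List (Lt (Fin 2))) (hb : b ≠ []) (q : ℕ)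
    (hq : q % LL m < sg0 m ∨ (sg0 m + 9 ≤ q % LL m ∧ q % LL m + 1 < LL m)) :
    (G m b q).1 ≠ (G m b (q + 1)).1 := by
  have hL := LL_pos m
  have hs : 0 < b.length := List.length_pos_iff.2 hb
  have hN : 0 < b.length * LL m := Nat.mul_pos hs hL
  have hq1 : q % LL m + 1 < LL m := by
    rcases hq with h | h
    · unfold LL at *; omega
    · exact h.2
  set N := b.length * LL m with hNdef
  set u := q % N with hu
  have hdvd : LL m ∣ N := Dvd.intro_left _ rfl
  have huL : u % LL m = q % LL m := Nat.mod_mod_of_dvd q hdvd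
  have huN : u < N := Nat.mod_lt _ hN
  have h1 : (u + 1) / LL m = u / LL m ∧ (u + 1) % LL m = u % LL m + 1 := by
    rw [Nat.div_mod_unique hL]
    have := Nat.div_add_mod u (LL m)
    refine ⟨by omega, by omega⟩
  have h2 : u + 1 < N := by
    by_contra hcon
    have h3 : u + 1 = N := by omega
    have h4 : (u + 1) % LL m = 0 := by rw [h3]; exact Nat.mod_eq_zero_of_dvd hdvd
    omega
  have h5 : (q + 1) % N = u + 1 := by
    rw [← Nat.mod_add_mod, ← hu, Nat.mod_eq_of_lt h2]
  unfold G
  rw [h5, ← hu, Wb_getD m b u huN, Wb_getD m b (u + 1) h2, h1.1, h1.2]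
  apply blk_alt
  rw [huL]
  exact hq

lemma G_triple (b : List (Lt (Fin 2))) (hb : b ≠ []) (q : ℕ) (h1 : G m b q = G m b (q + 1))
    (h2 : G m b (q + 1) = G m b (q + 2)) : sg0 m ≤ q % LL m ∧ q % LL m ≤ sg0 m + 7 := by
  have hL := LL_pos m
  have hs := sg0_pos m
  have hr : q % LL m < LL m := Nat.mod_lt _ hL
  have e1 : (q + 1) % LL m = (q % LL m + 1) % LL m := by rw [Nat.mod_add_mod]
  have k1 : ¬ (q % LL m < sg0 m ∨ (sg0 m + 9 ≤ q % LL m ∧ q % LL m + 1 < LL m)) := by
    intro h
    exact G_alt m b hb q h (by rw [h1])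
  have k2 : ¬ ((q + 1) % LL m < sg0 m ∨ (sg0 m + 9 ≤ (q + 1) % LL m ∧
      (q + 1) % LL m + 1 < LL m)) := by
    intro h
    exact G_alt m b hb (q + 1) h (by rw [h2])
  have hLL : LL m = 2 * sg0 m + 10 := rfl
  by_cases c : q % LL m + 1 < LL m
  · rw [Nat.mod_eq_of_lt c] at e1
    omega
  · have c' : q % LL m + 1 = LL m := by omega
    rw [c', Nat.mod_self] at e1
    omega

end pat

end Pool.Agent.Helper22.MC
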