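import Pool.Agent.Helper22.MC.M7

set_option autoImplicit false
set_option linter.unusedSectionVars false

/-! Rotations of products of blocks. -/

namespace Pool.Agent.Helper22.MC

open Pool.Agent.Helper156.OF

lemma rot_getD {β γ : Type} (L : List β) (θ : β → γ) (p q M : List γ) (d : β) (d' : γ)
    (h1 : L.map θ = p ++ q) (h2 : M = q ++ p) (i : ℕ) (hi : i < L.length) :
    M.getD i d' = θ (L.getD ((i + p.length) % L.length) d) := by
  have hlen : (L.map θ).length = L.length := List.length_map _
  have h3 : M = (L.map θ).rotate p.length := by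
    rw [h1, List.rotate_append_length_eq, h2]
  have hmod : (i + p.length) % L.length < L.length := Nat.mod_lt _ (by omega)
  have hi' : i < ((L.map θ).rotate p.length).length := by
    rw [List.length_rotate, hlen]; exact hi
  rw [h3, List.getD_eq_getElem _ _ hi', List.getElem_rotate, List.getD_eq_getElem _ _ hmod,
    List.getElem_map]
  congr 1
  simp only [List.length_map]

section

variable (m : ℕ)

/-- position of the odd letter -/
def od : Lt (Fin 2) → ℕ
  | (0, true) => 5
  | (0, false) => 2
  | (1, true) => 4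
  | (1, false) => 3

lemma od_inj {c c' : Lt (Fin 2)} (h : od c = od c') : c = c' := by
  revert h
  refine four (fun c => od c = od c' → c = c') ?_ ?_ ?_ ?_ c <;>
  refine four (fun c' => od _ = od c' → _ = c') ?_ ?_ ?_ ?_ c' <;>
  simp [od]

lemma od_pos (c : Lt (Fin 2)) : 0 < od c ∧ od c < 8 := by
  refine four (fun c => 0 < od c ∧ od c < 8) ?_ ?_ ?_ ?_ c <;> simp [od]

lemma od_spec (c : Lt (Fin 2)) : ∀ j < 8, (mid m c).getD j (x0 m) =
    if j = od c then (i0 m, c.2) else zl m c := by
  refine four (fun c => ∀ j < 8, (mid m c).getD j (x0 m) =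
    if j = od c then (i0 m, c.2) else zl m c) ?_ ?_ ?_ ?_ c <;>
  · intro j hj
    interval_cases j <;> rfl

lemma mid_inj (c c' : Lt (Fin 2)) (θ : Lt (Fin (m + 3)) → Lt (Fin (m + 3)))
    (h : mid m c' = (mid m c).map θ) : c = c' := by
  by_contra hcc
  have hod : od c' ≠ od c := fun h' => hcc (od_inj h').symm
  have key : ∀ j < 8, (mid m c').getD j (x0 m) = θ ((mid m c).getD j (x0 m)) := by
    intro j hj
    have l1 : j < (mid m c').length := by rw [len_mid]; exact hj
    have l2 : j < (mid m c).length := by rw [len_mid]; exact hj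
    rw [List.getD_eq_getElem _ _ l1, List.getD_eq_getElem _ _ l2]
    simp only [h, List.getElem_map]
  have k1 := key (od c') (od_pos c').2
  have k2 := key 0 (by norm_num)
  rw [od_spec m c' _ (od_pos c').2, od_spec m c _ (od_pos c').2, if_pos rfl, if_neg hod] at k1
  rw [od_spec m c' _ (by norm_num), od_spec m c _ (by norm_num), if_neg (od_pos c').1.ne,
    if_neg (od_pos c).1.ne, ← k1] at k2
  exact i02 m (congrArg Prod.fst k2).symm

lemma mem_rep {α : Type} {y z x : Lt α} (T : ℕ) (h : x ∈ Dw y z) : x ∈ rep T y z := by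
  unfold rep
  rw [List.mem_flatten]
  exact ⟨_, by simp, h⟩

lemma mem_Sw {α : Type} {s e x : Lt α} {T : ℕ} {Q : List (α × α)} {p : α × α} (hp : p ∈ Q)
    (h : x ∈ Dw (p.1, true) (p.2, true)) : x ∈ Sw T s e Q := by
  unfold Sw
  rw [List.mem_flatMap]
  refine ⟨p, hp, ?_⟩
  rw [List.mem_cons, List.mem_append]
  exact Or.inr (Or.inl (mem_rep T h))

lemma mem_Dw_left {α : Type} (i j : α) : ((i, true) : Lt α) ∈ Dw (i, true) (j, true) := by
  simp [Dw]

lemma mem_Dw_right {α : Type} (i j : α) : ((j, true) : Lt α) ∈ Dw (i, true) (j, true) := by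
  simp [Dw]

lemma mem_wd (c : Lt (Fin 2)) (i : Fin (m + 3)) : ∃ b : Bool, (i, b) ∈ wd m c := by
  obtain ⟨k, hk⟩ : ∃ k : Fin (m + 3), i ≠ k := by
    by_cases h : i = i0 m
    · exact ⟨i1 m, by rw [h]; exact i01 m⟩
    · exact ⟨i0 m, h⟩
  have h1 : (i, true) ∈ Sw (TT m) (i0 m, true) (i1 m, false) (PQ m) := by
    rcases PQ_total m i k hk with h | h
    · exact mem_Sw h (mem_Dw_left _ _)
    · exact mem_Sw h (mem_Dw_right _ _)
  have h2 : (i, true) ∈ Sw (TT m) (i1 m, false) (i0 m, true) (PQ' m) := by
    rcases PQ'_total m i k hk with h | h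
    · exact mem_Sw h (mem_Dw_left _ _)
    · exact mem_Sw h (mem_Dw_right _ _)
  have inv : ∀ L : List (Lt (Fin (m + 3))), (i, true) ∈ L → (i, false) ∈ FreeGroup.invRev L := by
    intro L hL
    unfold FreeGroup.invRev
    rw [List.mem_reverse, List.mem_map]
    exact ⟨_, hL, rfl⟩
  refine four (fun c => ∃ b : Bool, (i, b) ∈ wd m c) ?_ ?_ ?_ ?_ c
  · exact ⟨true, h1⟩
  · exact ⟨false, inv _ h1⟩
  · exact ⟨true, h2⟩
  · exact ⟨false, inv _ h2⟩

lemma blk_map (c c' : Lt (Fin 2)) (σ : SP (Fin (m + 3)))
    (h : blk m c' = (blk m c).map (σ : Equiv.Perm (Lt (Fin (m + 3))))) : σ = 1 := by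
  unfold blk at h
  simp only [List.map_append] at h
  obtain ⟨h1, h2⟩ := List.append_inj h (by
    simp only [List.length_append, List.length_map, len_wd, List.length_singleton])
  obtain ⟨h3, -⟩ := List.append_inj h1 (by simp only [List.length_map, len_wd])
  obtain ⟨h4, -⟩ := List.append_inj h2 (by simp only [List.length_map, len_mid])
  have hc : c = c' := mid_inj m c c' _ h4
  subst hc
  have h5 : ∀ x ∈ wd m c, (σ : Equiv.Perm (Lt (Fin (m + 3)))) x = x := by
    have : (wd m c).map (σ : Equiv.Perm (Lt (Fin (m + 3)))) = (wd m c).map id := by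
      rw [← h3, List.map_id]
    exact fun x hx => List.map_inj_left.1 this x hx
  apply Subtype.ext
  apply Equiv.ext
  rintro ⟨i, b⟩
  obtain ⟨b', hb'⟩ := mem_wd m c i
  have h6 := h5 _ hb'
  by_cases hbb : b = b'
  · rw [hbb]; exact h6
  · have h7 : ((i, b) : Lt (Fin (m + 3))) = nv (i, b') := by
      have hd : ∀ x y : Bool, x ≠ y → x = !y := by decide
      have : b = !b' := hd _ _ hbb
      rw [this]; rfl
    rw [h7, SP.map_nv, h6]
    rfl

theorem blocks_rigid (b b' : List (Lt (Fin 2))) (hb : b ≠ []) (σ : SP (Fin (m + 3)))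
    (p q : List (Lt (Fin (m + 3))))
    (h1 : (Wb m b).map (σ : Equiv.Perm (Lt (Fin (m + 3)))) = p ++ q) (h2 : Wb m b' = q ++ p) :
    σ = 1 ∧ ∃ t, p = Wb m (b.take t) := by
  have hL := LL_pos m
  have hs := sg0_pos m
  have hLL : LL m = 2 * sg0 m + 10 := rfl
  have l1 : b.length * LL m = p.length + q.length := by
    rw [← len_Wb, ← List.length_append, ← h1, List.length_map]
  have l2 : b'.length * LL m = q.length + p.length := by
    rw [← len_Wb, ← List.length_append, ← h2]
  have l3 : b'.length = b.length := Nat.eq_of_mul_eq_mul_right hL (by omega)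
  have hbp : 0 < b.length := List.length_pos_iff.2 hb
  obtain ⟨c', bs', rfl⟩ : ∃ c' bs', b' = c' :: bs' := by
    cases b' with
    | nil => rw [List.length_nil] at l3; omega
    | cons c' bs' => exact ⟨c', bs', rfl⟩
  have hN : LL m ≤ b.length * LL m := Nat.le_mul_of_pos_left _ hbp
  -- letters of the second word
  have key : ∀ i, i < LL m → (blk m c').getD i (x0 m) =
      (σ : Equiv.Perm (Lt (Fin (m + 3)))) (G m b (i + p.length)) := by
    intro i hi
    have h3 := rot_getD (Wb m b) (σ : Equiv.Perm (Lt (Fin (m + 3)))) p q (Wb m (c' :: bs'))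
      (x0 m) (x0 m) h1 h2 i (by rw [len_Wb]; omega)
    rw [len_Wb] at h3
    rw [Wb_cons, List.getD_append _ _ _ _ (by rw [len_blk]; exact hi)] at h3
    exact h3
  have kinj : ∀ i j, i < LL m → j < LL m → (blk m c').getD i (x0 m) = (blk m c').getD j (x0 m) →
      G m b (i + p.length) = G m b (j + p.length) := by
    intro i j hi hj hij
    rw [key i hi, key j hj] at hij
    exact (σ : Equiv.Perm (Lt (Fin (m + 3)))).injective hij
  have t1 := G_triple m b hb (sg0 m + p.length)
    (by
      have := kinj (sg0 m + 0) (sg0 m + 1) (by omega) (by omega)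
        (by rw [blk_z m c' 0 (by simp), blk_z m c' 1 (by simp)])
      rw [show sg0 m + p.length + 1 = sg0 m + 1 + p.length by omega]
      exact this)
    (by
      have := kinj (sg0 m + 1) (sg0 m + 2) (by omega) (by omega)
        (by rw [blk_z m c' 1 (by simp), blk_z m c' 2 (by simp)])
      rw [show sg0 m + p.length + 1 = sg0 m + 1 + p.length by omega,
        show sg0 m + p.length + 2 = sg0 m + 2 + p.length by omega]
      exact this)
  have t2 := G_triple m b hb (sg0 m + 7 + p.length)
    (by
      have := kinj (sg0 m + 7) (sg0 m + 8) (by omega) (by omega)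
        (by rw [blk_z m c' 7 (by simp), blk_z m c' 8 (by simp)])
      rw [show sg0 m + 7 + p.length + 1 = sg0 m + 8 + p.length by omega]
      exact this)
    (by
      have := kinj (sg0 m + 8) (sg0 m + 9) (by omega) (by omega)
        (by rw [blk_z m c' 8 (by simp), blk_z m c' 9 (by simp)])
      rw [show sg0 m + 7 + p.length + 1 = sg0 m + 8 + p.length by omega,
        show sg0 m + 7 + p.length + 2 = sg0 m + 9 + p.length by omega]
      exact this)
  have hdvd : p.length % LL m = 0 := by
    have hr : p.length % LL m < LL m := Nat.mod_lt _ hL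
    have e1 : (sg0 m + p.length) % LL m = (sg0 m + p.length % LL m) % LL m := by
      rw [Nat.add_mod_mod]
    have e2 : (sg0 m + 7 + p.length) % LL m = (sg0 m + 7 + p.length % LL m) % LL m := by
      rw [Nat.add_mod_mod]
    by_cases c1 : sg0 m + p.length % LL m < LL m
    · rw [Nat.mod_eq_of_lt c1] at e1
      have c2 : sg0 m + 7 + p.length % LL m < LL m := by omega
      rw [Nat.mod_eq_of_lt c2] at e2
      omega
    · have e3 : (sg0 m + p.length % LL m) % LL m = sg0 m + p.length % LL m - LL m := by
        rw [Nat.mod_eq_sub_mod (by omega), Nat.mod_eq_of_lt (by omega)]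
      omega
  obtain ⟨t, ht⟩ := Nat.dvd_of_mod_eq_zero hdvd
  have hts : t ≤ b.length := by
    have : LL m * t ≤ LL m * b.length := by
      rw [← ht, Nat.mul_comm (LL m) b.length, l1]
      omega
    exact Nat.le_of_mul_le_mul_left this hL
  have e4 : (Wb m (b.take t)).map (σ : Equiv.Perm (Lt (Fin (m + 3)))) ++
      (Wb m (b.drop t)).map (σ : Equiv.Perm (Lt (Fin (m + 3)))) = p ++ q := by
    rw [← List.map_append, ← Wb_append, List.take_append_drop]
    exact h1
  obtain ⟨e5, e6⟩ := List.append_inj e4 (by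
    rw [List.length_map, len_Wb, List.length_take, Nat.min_eq_left hts, ht, Nat.mul_comm])
  have e7 : Wb m (c' :: bs') =
      (Wb m (b.drop t ++ b.take t)).map (σ : Equiv.Perm (Lt (Fin (m + 3)))) := by
    rw [h2, ← e5, ← e6, ← List.map_append, ← Wb_append]
  obtain ⟨c, bs, hc⟩ : ∃ c bs, b.drop t ++ b.take t = c :: bs := by
    cases hd : b.drop t ++ b.take t with
    | nil =>
      have : (b.drop t ++ b.take t).length = 0 := by rw [hd]; rfl
      rw [List.length_append, List.length_drop, List.length_take] at this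
      omega
    | cons c bs => exact ⟨c, bs, rfl⟩
  rw [hc, Wb_cons, Wb_cons, List.map_append] at e7
  obtain ⟨e8, -⟩ := List.append_inj e7 (by rw [List.length_map, len_blk, len_blk])
  have hσ : σ = 1 := blk_map m c c' σ e8
  refine ⟨hσ, t, ?_⟩
  rw [← e5, hσ]
  exact List.map_id _

end

end Pool.Agent.Helper22.MC
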