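import Pool.Agent.Helper22.MC.M8
import Pool.Agent.Helper22.MC.M3
import Pool.Agent.Helper22.MC.M4

set_option autoImplicit false
set_option linter.unusedSectionVars false

/-! The malcharacteristic subgroup. -/

namespace Pool.Agent.Helper22.MC

open Pool.Agent.Helper156.OF

section gen

variable {α : Type} [DecidableEq α]

lemma toAut_mk (σ : SP α) (L : List (Lt α)) :
    toAut σ (FreeGroup.mk L) = FreeGroup.mk (L.map (σ : Equiv.Perm (Lt α))) := by
  induction L with
  | nil =>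
    have : (FreeGroup.mk [] : FreeGroup α) = 1 := rfl
    rw [List.map_nil, this, map_one]
  | cons x L ih =>
    have h1 : (FreeGroup.mk (x :: L) : FreeGroup α) = gl x * FreeGroup.mk L := mk_cons _ _
    have h2 : (FreeGroup.mk ((x :: L).map (σ : Equiv.Perm (Lt α))) : FreeGroup α) =
      gl ((σ : Equiv.Perm (Lt α)) x) * FreeGroup.mk (L.map (σ : Equiv.Perm (Lt α))) := mk_cons _ _
    rw [h1, h2, map_mul, ih, toAut_gl]

lemma CR_map (σ : SP α) {L : List (Lt α)} (h : CR L) : CR (L.map (σ : Equiv.Perm (Lt α))) := by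
  have key : ∀ x y : Lt α, x ≠ nv y →
      (σ : Equiv.Perm (Lt α)) x ≠ nv ((σ : Equiv.Perm (Lt α)) y) := by
    intro x y hxy h'
    rw [← SP.map_nv] at h'
    exact hxy ((σ : Equiv.Perm (Lt α)).injective h')
  refine ⟨?_, ?_⟩
  · rw [List.isChain_map]
    exact h.1.imp fun x y hxy => key x y hxy
  · intro x hx y hy
    rw [List.getLast?_map] at hx
    rw [List.head?_map] at hy
    obtain ⟨x', hx', rfl⟩ := Option.mem_map.1 hx
    obtain ⟨y', hy', rfl⟩ := Option.mem_map.1 hy
    exact key _ _ (h.2 x' hx' y' hy')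

lemma exists_cr (y : FreeGroup α) (hy : y ≠ 1) : ∃ (c : FreeGroup α) (r : List (Lt α)),
    CR r ∧ r ≠ [] ∧ y = c * FreeGroup.mk r * c⁻¹ := by
  have h1 : y = FreeGroup.mk (FreeGroup.reduceCyclically.conjugator y.toWord) *
      FreeGroup.mk (cr y) * (FreeGroup.mk (FreeGroup.reduceCyclically.conjugator y.toWord))⁻¹ := by
    rw [FreeGroup.inv_mk, ← mk_append, ← mk_append, ← toWord_eq, FreeGroup.mk_toWord]
  refine ⟨FreeGroup.mk (FreeGroup.reduceCyclically.conjugator y.toWord), cr y, ?_, ?_, ?_⟩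
  · exact CR_iff.1 (FreeGroup.reduceCyclically.isCyclicallyReduced FreeGroup.isReduced_toWord)
  · intro h0
    apply hy
    rw [h1, h0]
    have : (FreeGroup.mk [] : FreeGroup α) = 1 := rfl
    rw [this]
    group
  · exact h1

end gen

section final

variable (m : ℕ)

/-- the embedding of the free group of rank two -/
noncomputable def iot : FreeGroup (Fin 2) →* FreeGroup (Fin (m + 3)) :=
  lh (fun c => FreeGroup.mk (blk m c))

lemma iot_mk (b : List (Lt (Fin 2))) : iot m (FreeGroup.mk b) = FreeGroup.mk (Wb m b) := by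
  induction b with
  | nil =>
    have : (FreeGroup.mk [] : FreeGroup (Fin 2)) = 1 := rfl
    rw [this, map_one]
    rfl
  | cons c b ih =>
    have h1 : (FreeGroup.mk (c :: b) : FreeGroup (Fin 2)) = gl c * FreeGroup.mk b := mk_cons _ _
    rw [h1, map_mul, ih, Wb_cons, mk_append]
    congr 1
    unfold iot
    apply lh_gl
    intro x
    rw [blk_nv, FreeGroup.inv_mk]

lemma iot_inj : Function.Injective (iot m) := by
  rw [injective_iff_map_eq_one]
  intro x hx
  have h1 : x = FreeGroup.mk x.toWord := FreeGroup.mk_toWord.symm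
  rw [h1, iot_mk] at hx
  have h2 : Wb m x.toWord = [] := by
    apply eq_of_mk (Wb_red m _ (isReduced_iff.1 FreeGroup.isReduced_toWord)) (by simp)
    exact hx
  have h3 : (Wb m x.toWord).length = 0 := by rw [h2]; rfl
  rw [len_Wb] at h3
  have hL := LL_pos m
  have h4 : x.toWord.length = 0 := by
    rcases Nat.mul_eq_zero.1 h3 with h | h
    · exact h
    · omega
  exact FreeGroup.toWord_eq_nil_iff.1 (List.length_eq_zero_iff.1 h4)

theorem main_rigid (r r' : List (Lt (Fin 2))) (hr : CR r) (hr' : CR r') (hne : r ≠ [])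
    (hne' : r' ≠ []) (d : MulAut (FreeGroup (Fin (m + 3))))
    (hd : d (FreeGroup.mk (Wb m r)) = FreeGroup.mk (Wb m r')) :
    ∃ h : FreeGroup (Fin 2), d = MulAut.conj (iot m h) := by
  have hS : ∃ (g : FreeGroup (Fin (m + 3))) (σ : SP (Fin (m + 3))),
      d = MulAut.conj g * toAut σ := by
    rcases le_total (cyc (FreeGroup.mk (Wb m r))) (cyc (FreeGroup.mk (Wb m r'))) with h | h
    · apply rigid d (FreeGroup.mk (Wb m r))
      · rw [hd]; exact SM_Wb m r' hr' hne'
      · rw [hd]; exact h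
    · have hd' : d⁻¹ (FreeGroup.mk (Wb m r')) = FreeGroup.mk (Wb m r) := by
        rw [← hd]
        exact d.symm_apply_apply _
      obtain ⟨g, τ, hg⟩ := rigid d⁻¹ (FreeGroup.mk (Wb m r'))
        (by rw [hd']; exact SM_Wb m r hr hne) (by rw [hd']; exact h)
      refine ⟨toAut τ⁻¹ g⁻¹, τ⁻¹, ?_⟩
      rw [← conj_aut, map_inv, map_inv, ← mul_inv_rev, ← hg, inv_inv]
  obtain ⟨h, σ, rfl⟩ := hS
  have h1 : h * FreeGroup.mk ((Wb m r).map (σ : Equiv.Perm (Lt (Fin (m + 3))))) * h⁻¹ =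
      FreeGroup.mk (Wb m r') := by
    rw [← hd, MulAut.mul_apply, toAut_mk, MulAut.conj_apply]
  have hW : (Wb m r).map (σ : Equiv.Perm (Lt (Fin (m + 3)))) ≠ [] := by
    intro h0
    have h3 : ((Wb m r).map (σ : Equiv.Perm (Lt (Fin (m + 3))))).length = 0 := by rw [h0]; rfl
    rw [List.length_map, len_Wb] at h3
    have hL := LL_pos m
    have := List.length_pos_iff.2 hne
    rcases Nat.mul_eq_zero.1 h3 with h | h <;> omega
  obtain ⟨p, q, j, e1, e2, e3⟩ := conj_words _ h _ _ rfl (CR_map σ (Wb_CR m r hr))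
    (Wb_CR m r' hr') hW h1
  obtain ⟨hσ, t, ht⟩ := blocks_rigid m r r' hne σ p q e1 e2
  subst hσ
  refine ⟨(FreeGroup.mk (r.take t))⁻¹ * (FreeGroup.mk r) ^ j, ?_⟩
  have e4 : (Wb m r).map ((1 : SP (Fin (m + 3))) : Equiv.Perm (Lt (Fin (m + 3)))) = Wb m r :=
    List.map_id _
  rw [map_mul, map_inv, map_zpow, iot_mk, iot_mk, map_one, mul_one]
  rw [e4, ht] at e3
  rw [← e3]

theorem main (d : MulAut (FreeGroup (Fin (m + 3)))) (x : FreeGroup (Fin (m + 3)))
    (hx : x ∈ (iot m).range) (hx1 : x ≠ 1) (hdx : d x ∈ (iot m).range) :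
    ∃ h ∈ (iot m).range, d = MulAut.conj h := by
  obtain ⟨y, rfl⟩ := hx
  obtain ⟨y', hy'⟩ := hdx
  have hy1 : y ≠ 1 := by
    rintro rfl
    exact hx1 (map_one _)
  have hy1' : y' ≠ 1 := by
    rintro rfl
    rw [map_one] at hy'
    apply hx1
    apply d.injective
    rw [← hy', map_one]
  obtain ⟨c, r, hr, hne, hy⟩ := exists_cr y hy1
  obtain ⟨c', r', hr', hne', hyy⟩ := exists_cr y' hy1'
  obtain ⟨h, hh⟩ := main_rigid m r r' hr hr' hne hne'
    ((MulAut.conj (iot m c'))⁻¹ * d * MulAut.conj (iot m c)) (by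
      rw [MulAut.mul_apply, MulAut.mul_apply, ← map_inv, MulAut.conj_apply, MulAut.conj_apply]
      have e1 : iot m c * FreeGroup.mk (Wb m r) * (iot m c)⁻¹ = iot m y := by
        rw [hy, map_mul, map_mul, map_inv, iot_mk]
      rw [e1, ← hy', hyy, ← iot_mk, map_mul, map_mul, map_inv]
      group)
  refine ⟨iot m (c' * h * c⁻¹), ⟨_, rfl⟩, ?_⟩
  rw [map_mul, map_mul, map_mul, map_mul, map_inv, map_inv, ← hh]
  group

end final

end Pool.Agent.Helper22.MC
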